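import Mathlib
import Pool.Agent.Q106.PK.Stm

/-!
# Project PK: there is an `n`-omino for every `n ≥ 1` (lemma job ONE)
-/

set_option autoImplicit false

namespace Pool.Agent.Q106.PK

/-- the row of `n` cells -/
private noncomputable def one_row (n : ℕ) : Finset (ℤ × ℤ) :=
  (Finset.range n).image fun i : ℕ => ((i : ℤ), (0 : ℤ))

private lemma one_mem {n i : ℕ} (h : i < n) : ((i : ℤ), (0 : ℤ)) ∈ one_row n :=
  Finset.mem_image.2 ⟨i, Finset.mem_range.2 h, rfl⟩

private lemma one_omino (n : ℕ) (hn : 1 ≤ n) : IsOmino n (one_row n) := by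
  refine ⟨?_, ⟨((0 : ℕ), (0 : ℤ)), one_mem (by omega)⟩, ?_⟩
  · rw [one_row, Finset.card_image_of_injective, Finset.card_range]
    intro a b hab
    have := congrArg Prod.fst hab
    simpa using this
  · have hsymm : Std.Symm (fun a b : ℤ × ℤ => a ∈ one_row n ∧ b ∈ one_row n ∧ CAdj a b) :=
      ⟨fun a b h => ⟨h.2.1, h.1, cadj_symm h.2.2⟩⟩
    have hreach : ∀ i : ℕ, i < n → Relation.ReflTransGen
        (fun a b : ℤ × ℤ => a ∈ one_row n ∧ b ∈ one_row n ∧ CAdj a b)
        (((0 : ℕ) : ℤ), (0 : ℤ)) ((i : ℤ), (0 : ℤ)) := by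
      intro i
      induction i with
      | zero => intro _; exact Relation.ReflTransGen.refl
      | succ i ih =>
        intro hi
        refine (ih (by omega)).tail ⟨one_mem (by omega), one_mem hi, ?_⟩
        unfold CAdj
        right
        exact ⟨rfl, Or.inr (by push_cast; rfl)⟩
    intro p hp q hq
    obtain ⟨i, hi, rfl⟩ := Finset.mem_image.1 hp
    obtain ⟨j, hj, rfl⟩ := Finset.mem_image.1 hq
    exact (Relation.ReflTransGen.stdSymm.symm _ _ (hreach i (Finset.mem_range.1 hi))).trans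
      (hreach j (Finset.mem_range.1 hj))

theorem t_ONE (h1 : S_REP) (h2 : S_BOXA) (h3 : S_FIN) : S_ONE := by
  intro n hn
  rw [h1 n BoxA fun P hP => h2 P hP.2.1]
  have hfin : Finite {P : Finset (ℤ × ℤ) // IsOmino n P ∧ BoxA P} := (h3 n).to_subtype
  obtain ⟨v, hv, _⟩ := h2 (one_row n) (one_omino n hn).2.1
  have hne : Nonempty {P : Finset (ℤ × ℤ) // IsOmino n P ∧ BoxA P} :=
    ⟨⟨tr v (one_row n), isOmino_tr v (one_omino n hn), hv⟩⟩
  exact Nat.card_pos

end Pool.Agent.Q106.PK
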