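import Pool.Agent.Q61.BS.Stm

/-!
Lemma job TCT of project BS (helper61), proved by helper130: the number of the good codes.
-/

set_option autoImplicit false

open MeasureTheory Set Filter Topology Real

noncomputable section

namespace Pool.Agent.Q130.BS

open Pool.Agent.Q61.BS

theorem tct (h : S_cnt) (h1 : S_mmn) (h2 : S_hgt) : S_tct := by
  classical
  intro β₁ β₂ θ hβ₁ hβ₂ n i hn hi
  obtain ⟨hnm, -, -⟩ := h1 β₁ β₂ hβ₁ hβ₂ n i hi
  have hm1 : 1 ≤ mm β₁ β₂ n i := hn.trans hnm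
  have e : Nat.card (TT β₁ β₂ θ n i) =
      (Finset.univ.filter (fun τ => τ ∈ TT β₁ β₂ θ n i)).card := by
    rw [Nat.card_eq_fintype_card]
    exact Fintype.card_subtype _
  have hmaps : Set.MapsTo (fun τ : Fin (mm β₁ β₂ n i) → Fin 4 => zc (ex τ) (mm β₁ β₂ n i))
      (Finset.univ.filter (fun τ => τ ∈ TT β₁ β₂ θ n i) : Set (Fin (mm β₁ β₂ n i) → Fin 4))
      (Finset.range (mm β₁ β₂ n i + 1) : Set ℕ) := by
    intro τ _
    rw [Finset.mem_coe, Finset.mem_range]
    exact Nat.lt_succ_of_le (h2 β₁ β₂ (ex τ) _).1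
  have hb : ∀ i' ∈ Finset.range (mm β₁ β₂ n i + 1),
      (((Finset.univ.filter (fun τ => τ ∈ TT β₁ β₂ θ n i)).filter
        (fun τ => zc (ex τ) (mm β₁ β₂ n i) = i')).card : ℝ) ≤
      exp (θ * (mm β₁ β₂ n i * log 5)) := by
    intro i' _
    rcases Finset.eq_empty_or_nonempty ((Finset.univ.filter (fun τ => τ ∈ TT β₁ β₂ θ n i)).filter
        (fun τ => zc (ex τ) (mm β₁ β₂ n i) = i')) with h0 | ⟨τ₀, hτ₀⟩
    · rw [h0, Finset.card_empty, Nat.cast_zero]
      exact (exp_pos _).le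
    · rw [Finset.mem_filter, Finset.mem_filter] at hτ₀
      obtain ⟨⟨-, ht1, ht2, ht3⟩, ht4⟩ := hτ₀
      rw [ht4] at ht3
      refine le_trans ?_ ((h n (mm β₁ β₂ n i) i i' hnm hm1).trans (exp_le_exp.mpr ht3))
      rw [Nat.card_eq_fintype_card, Fintype.card_subtype]
      norm_cast
      refine Finset.card_le_card ?_
      intro τ hτ
      rw [Finset.mem_filter, Finset.mem_filter] at hτ
      rw [Finset.mem_filter]
      exact ⟨Finset.mem_univ _, hτ.1.2.1, hτ.2, hτ.1.2.2.1⟩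
  rw [e, Finset.card_eq_sum_card_fiberwise hmaps]
  push_cast
  refine (Finset.sum_le_sum hb).trans ?_
  rw [Finset.sum_const, Finset.card_range, nsmul_eq_mul]
  push_cast
  exact le_rfl

end Pool.Agent.Q130.BS
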