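import Mathlib
import Pool.Agent.Q82.CW.Stm

/-!
# Job CW-F: the derivative of the pairing
-/

set_option autoImplicit false

open MeasureTheory Filter Topology Set
open scoped ContDiff

namespace Pool.Agent.Q82.CW

/-- Cauchy–Schwarz. -/
theorem f_cs {f g : ℝ → ℝ} (hf : MemLp f 2) (hg : MemLp g 2) :
    |∫ x, f x * g x| ≤ √(∫ x, f x ^ 2) * √(∫ x, g x ^ 2) := by
  have i1 : Integrable (fun x => f x ^ 2) := hf.integrable_sq
  have i2 : Integrable (fun x => g x ^ 2) := hg.integrable_sq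
  have i3 : Integrable (fun x => f x * g x) := hf.integrable_mul (q := 2) hg
  have h : ∀ t : ℝ, 0 ≤ (∫ x, g x ^ 2) * (t * t) + (2 * ∫ x, f x * g x) * t + ∫ x, f x ^ 2 := by
    intro t
    have h1 : 0 ≤ ∫ x, (f x + t * g x) ^ 2 := integral_nonneg fun x => sq_nonneg _
    have h2 : ∫ x, (f x + t * g x) ^ 2 = (∫ x, f x ^ 2) + 2 * t * (∫ x, f x * g x) +
        t ^ 2 * ∫ x, g x ^ 2 := by
      have i4 : Integrable (fun x => f x ^ 2 + 2 * t * (f x * g x)) := i1.add (i3.const_mul _)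
      rw [← integral_const_mul, ← integral_const_mul, ← integral_add i1 (i3.const_mul _),
        ← integral_add i4 (i2.const_mul _)]
      congr 1
      funext x
      ring
    nlinarith [h1, h2]
  have hd := discrim_le_zero h
  unfold discrim at hd
  have h1 : (∫ x, f x * g x) ^ 2 ≤ (∫ x, f x ^ 2) * ∫ x, g x ^ 2 := by nlinarith [hd]
  rw [← Real.sqrt_mul (integral_nonneg fun x => sq_nonneg _)]
  exact Real.abs_le_sqrt h1

/-- A family which is continuous in `τ ≥ 0` with values in `L²`. -/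
structure f_C2 (F : ℝ → ℝ → ℝ) : Prop where
  mem : ∀ τ, 0 ≤ τ → MemLp (F τ) 2
  lim : ∀ τ0, 0 ≤ τ0 → Tendsto (fun τ => ∫ x, (F τ x - F τ0 x) ^ 2) (𝓝[Ici 0] τ0) (𝓝 0)

theorem f_C2.const {f : ℝ → ℝ} (hf : MemLp f 2) : f_C2 (fun _ => f) where
  mem _ _ := hf
  lim τ0 _ := by simpa using tendsto_const_nhds

theorem f_C2.pairT {F G : ℝ → ℝ → ℝ} (hF : f_C2 F) (hG : f_C2 G) {s : ℝ} (hs : 0 ≤ s) :
    Tendsto (fun p : ℝ × ℝ => ∫ x, F p.1 x * G p.2 x) (𝓝[Ici 0] s ×ˢ 𝓝[Ici 0] s)
      (𝓝 (∫ x, F s x * G s x)) := by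
  have a1 : Tendsto (fun p : ℝ × ℝ => √(∫ x, (F p.1 x - F s x) ^ 2))
      (𝓝[Ici 0] s ×ˢ 𝓝[Ici 0] s) (𝓝 0) := by
    have := (hF.lim s hs).comp (tendsto_fst (f := 𝓝[Ici 0] s) (g := 𝓝[Ici 0] s))
    simpa using this.sqrt
  have a2 : Tendsto (fun p : ℝ × ℝ => √(∫ x, (G p.2 x - G s x) ^ 2))
      (𝓝[Ici 0] s ×ˢ 𝓝[Ici 0] s) (𝓝 0) := by
    have := (hG.lim s hs).comp (tendsto_snd (f := 𝓝[Ici 0] s) (g := 𝓝[Ici 0] s))
    simpa using this.sqrt
  rw [tendsto_iff_norm_sub_tendsto_zero]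
  have hb : Tendsto (fun p : ℝ × ℝ =>
      √(∫ x, (F p.1 x - F s x) ^ 2) * √(∫ x, (G p.2 x - G s x) ^ 2) +
      √(∫ x, (F p.1 x - F s x) ^ 2) * √(∫ x, G s x ^ 2) +
      √(∫ x, F s x ^ 2) * √(∫ x, (G p.2 x - G s x) ^ 2))
      (𝓝[Ici 0] s ×ˢ 𝓝[Ici 0] s) (𝓝 0) := by
    simpa using ((a1.mul a2).add (a1.mul_const _)).add (a2.const_mul (√(∫ x, F s x ^ 2)))
  refine squeeze_zero' (Eventually.of_forall fun p => norm_nonneg _) ?_ hb
  have hev : ∀ᶠ p : ℝ × ℝ in 𝓝[Ici 0] s ×ˢ 𝓝[Ici 0] s, 0 ≤ p.1 ∧ 0 ≤ p.2 := by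
    have h1 : ∀ᶠ t in 𝓝[Ici 0] s, (0 : ℝ) ≤ t := eventually_mem_nhdsWithin
    exact h1.prod_mk h1
  filter_upwards [hev] with p hp
  have m1 := hF.mem _ hp.1
  have m2 := hG.mem _ hp.2
  have m3 := hF.mem _ hs
  have m4 := hG.mem _ hs
  have d1 : MemLp (fun x => F p.1 x - F s x) 2 := m1.sub m3
  have d2 : MemLp (fun x => G p.2 x - G s x) 2 := m2.sub m4
  have e : (∫ x, F p.1 x * G p.2 x) - ∫ x, F s x * G s x =
      (∫ x, (F p.1 x - F s x) * (G p.2 x - G s x)) + (∫ x, (F p.1 x - F s x) * G s x) +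
        ∫ x, F s x * (G p.2 x - G s x) := by
    have j1 : Integrable (fun x => (F p.1 x - F s x) * (G p.2 x - G s x)) :=
      d1.integrable_mul (q := 2) d2
    have j2 : Integrable (fun x => (F p.1 x - F s x) * G s x) := d1.integrable_mul (q := 2) m4
    have j3 : Integrable (fun x => F s x * (G p.2 x - G s x)) := m3.integrable_mul (q := 2) d2
    have j4 : Integrable (fun x => F p.1 x * G p.2 x) := m1.integrable_mul (q := 2) m2
    have j5 : Integrable (fun x => F s x * G s x) := m3.integrable_mul (q := 2) m4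
    have j6 : Integrable (fun x => (F p.1 x - F s x) * (G p.2 x - G s x) +
        (F p.1 x - F s x) * G s x) := j1.add j2
    rw [← integral_add j1 j2, ← integral_add j6 j3, ← integral_sub j4 j5]
    congr 1
    funext x
    ring
  rw [Real.norm_eq_abs, e]
  refine (abs_add_le _ _).trans (add_le_add ((abs_add_le _ _).trans (add_le_add ?_ ?_)) ?_)
  · exact f_cs d1 d2
  · exact f_cs d1 m4
  · exact f_cs m3 d2

theorem f_C2.pair {F G : ℝ → ℝ → ℝ} (hF : f_C2 F) (hG : f_C2 G) :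
    ContinuousOn (fun τ => ∫ x, F τ x * G τ x) (Ici 0) := by
  intro s hs
  have h := (hF.pairT hG (s := s) hs).comp
    (tendsto_id.prodMk tendsto_id : Tendsto (fun τ : ℝ => (τ, τ)) (𝓝[Ici 0] s) _)
  exact h

/-- translation invariance -/
theorem f_tr (f : ℝ → ℝ) (h : ℝ) : ∫ x, f (x + h) = ∫ x, f x := integral_add_right_eq_self f h

theorem f_memtr {f : ℝ → ℝ} (hf : MemLp f 2) (h : ℝ) : MemLp (fun x => f (x + h)) 2 :=
  hf.comp_measurePreserving (measurePreserving_add_right volume h)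

theorem f_C2.add {F G : ℝ → ℝ → ℝ} (hF : f_C2 F) (hG : f_C2 G) :
    f_C2 (fun τ x => F τ x + G τ x) where
  mem τ hτ := (hF.mem τ hτ).add (hG.mem τ hτ)
  lim s hs := by
    have hb : Tendsto (fun τ => 2 * (∫ x, (F τ x - F s x) ^ 2) + 2 * ∫ x, (G τ x - G s x) ^ 2)
        (𝓝[Ici 0] s) (𝓝 0) := by
      simpa using ((hF.lim s hs).const_mul 2).add ((hG.lim s hs).const_mul 2)
    refine squeeze_zero' (Eventually.of_forall fun p => integral_nonneg fun x => sq_nonneg _)
      ?_ hb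
    filter_upwards [eventually_mem_nhdsWithin] with τ hτ
    have d1 : MemLp (fun x => F τ x - F s x) 2 := (hF.mem τ hτ).sub (hF.mem s hs)
    have d2 : MemLp (fun x => G τ x - G s x) 2 := (hG.mem τ hτ).sub (hG.mem s hs)
    have i1 : Integrable (fun x => (F τ x - F s x) ^ 2) := d1.integrable_sq
    have i2 : Integrable (fun x => (G τ x - G s x) ^ 2) := d2.integrable_sq
    rw [← integral_const_mul, ← integral_const_mul,
      ← integral_add (i1.const_mul _) (i2.const_mul _)]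
    refine integral_mono ?_ ((i1.const_mul _).add (i2.const_mul _)) ?_
    · have : MemLp (fun x => F τ x + G τ x - (F s x + G s x)) 2 :=
        ((hF.mem τ hτ).add (hG.mem τ hτ)).sub ((hF.mem s hs).add (hG.mem s hs))
      exact this.integrable_sq
    · intro x
      simp only
      nlinarith [sq_nonneg ((F τ x - F s x) - (G τ x - G s x))]

theorem f_C2.tr {F : ℝ → ℝ → ℝ} (hF : f_C2 F) (h : ℝ) : f_C2 (fun τ x => F τ (x + h)) where
  mem τ hτ := f_memtr (hF.mem τ hτ) h
  lim s hs := by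
    have : (fun τ => ∫ x, (F τ (x + h) - F s (x + h)) ^ 2) =
        fun τ => ∫ x, (F τ x - F s x) ^ 2 := by
      funext τ
      exact f_tr (fun x => (F τ x - F s x) ^ 2) h
    rw [this]
    exact hF.lim s hs

/-- multiplication with a bounded measurable function -/
theorem f_C2.mul {F : ℝ → ℝ → ℝ} (hF : f_C2 F) {ψ : ℝ → ℝ} (hψ : Continuous ψ) {M : ℝ}
    (hM : ∀ x, |ψ x| ≤ M) : f_C2 (fun τ x => ψ x * F τ x) where
  mem τ hτ := by
    refine ((hF.mem τ hτ).const_mul M).mono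
      (hψ.aestronglyMeasurable.mul (hF.mem τ hτ).aestronglyMeasurable) ?_
    filter_upwards with x
    rw [norm_mul, norm_mul, Real.norm_eq_abs, Real.norm_eq_abs M]
    exact mul_le_mul_of_nonneg_right ((hM x).trans (le_abs_self M)) (norm_nonneg _)
  lim s hs := by
    have hb : Tendsto (fun τ => M ^ 2 * ∫ x, (F τ x - F s x) ^ 2) (𝓝[Ici 0] s) (𝓝 0) := by
      simpa using (hF.lim s hs).const_mul (M ^ 2)
    refine squeeze_zero' (Eventually.of_forall fun p => integral_nonneg fun x => sq_nonneg _)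
      ?_ hb
    filter_upwards [eventually_mem_nhdsWithin] with τ hτ
    have d1 : MemLp (fun x => F τ x - F s x) 2 := (hF.mem τ hτ).sub (hF.mem s hs)
    have i1 : Integrable (fun x => (F τ x - F s x) ^ 2) := d1.integrable_sq
    rw [← integral_const_mul]
    refine integral_mono_of_nonneg (Eventually.of_forall fun x => sq_nonneg _)
      (i1.const_mul _) (Eventually.of_forall fun x => ?_)
    simp only
    rw [← mul_sub, mul_pow]
    refine mul_le_mul_of_nonneg_right ?_ (sq_nonneg _)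
    rw [← sq_abs (ψ x)]
    exact pow_le_pow_left₀ (abs_nonneg _) (hM x) 2

theorem f_C2.df {F : ℝ → ℝ → ℝ} (hF : f_C2 F) (h : ℝ) : f_C2 (fun τ => Df h (F τ)) := by
  have h1 := (hF.tr h).add (hF.mul (ψ := fun _ => -1) continuous_const (M := 1) (by simp))
  have : (fun τ => Df h (F τ)) = fun τ x => F τ (x + h) + -1 * F τ x := by
    funext τ x
    unfold Df
    ring
  rw [this]
  exact h1

theorem f_int_sq {f : ℝ → ℝ} (hf : MemLp f 2) {x y : ℝ} (h : x ≤ y) :
    (∫ s in x..y, f s) ^ 2 ≤ (y - x) * ∫ s, f s ^ 2 := by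
  have hg : MemLp ((Ioc x y).indicator (fun _ => (1 : ℝ))) 2 (volume : Measure ℝ) :=
    memLp_indicator_const 2 measurableSet_Ioc 1 (Or.inr (by simp))
  have h1 := f_cs hf hg
  have e1 : ∫ s, f s * (Ioc x y).indicator (fun _ => (1 : ℝ)) s = ∫ s in x..y, f s := by
    rw [intervalIntegral.integral_of_le h, ← integral_indicator measurableSet_Ioc]
    congr 1
    funext s
    by_cases hs : s ∈ Ioc x y <;> simp [hs]
  have e2 : ∫ s, (Ioc x y).indicator (fun _ => (1 : ℝ)) s ^ 2 = y - x := by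
    have : (fun s => (Ioc x y).indicator (fun _ => (1 : ℝ)) s ^ 2) =
        (Ioc x y).indicator (fun _ => (1 : ℝ)) := by
      funext s
      by_cases hs : s ∈ Ioc x y <;> simp [hs]
    rw [this, integral_indicator measurableSet_Ioc]
    simp [h]
  rw [e1, e2] at h1
  have h2 := pow_le_pow_left₀ (abs_nonneg _) h1 2
  rw [sq_abs, mul_pow, Real.sq_sqrt (integral_nonneg fun x => sq_nonneg _),
    Real.sq_sqrt (by linarith)] at h2
  linarith

/-- the sup bound -/
theorem f_sup {f f' : ℝ → ℝ} (hf : MemLp f 2) (hf' : MemLp f' 2)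
    (hftc : ∀ x y : ℝ, f y - f x = ∫ s in x..y, f' s) (x : ℝ) :
    f x ^ 2 ≤ 2 * ((∫ s, f s ^ 2) + ∫ s, f' s ^ 2) := by
  have i1 : Integrable (fun x => f x ^ 2) := hf.integrable_sq
  have h0 : 0 ≤ ∫ s, f' s ^ 2 := integral_nonneg fun x => sq_nonneg _
  have h1 : ∀ y ∈ Icc x (x + 1), f x ^ 2 ≤ 2 * f y ^ 2 + 2 * ∫ s, f' s ^ 2 := by
    intro y hy
    have h2 := f_int_sq hf' hy.1
    rw [← hftc] at h2
    have h3 : (y - x) * ∫ s, f' s ^ 2 ≤ 1 * ∫ s, f' s ^ 2 :=
      mul_le_mul_of_nonneg_right (by linarith [hy.2]) h0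
    nlinarith [sq_nonneg (f y + (f y - f x))]
  have h4 : ∫ y in x..(x + 1), f x ^ 2 ≤ ∫ y in x..(x + 1), (2 * f y ^ 2 + 2 * ∫ s, f' s ^ 2) := by
    refine intervalIntegral.integral_mono_on (by linarith) intervalIntegrable_const ?_ h1
    exact (i1.intervalIntegrable.const_mul 2).add intervalIntegrable_const
  rw [intervalIntegral.integral_const, intervalIntegral.integral_add
    (i1.intervalIntegrable.const_mul 2) intervalIntegrable_const,
    intervalIntegral.integral_const_mul, intervalIntegral.integral_const] at h4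
  have h5 : ∫ y in x..(x + 1), f y ^ 2 ≤ ∫ y, f y ^ 2 := by
    rw [intervalIntegral.integral_of_le (by linarith)]
    exact setIntegral_le_integral i1 (Eventually.of_forall fun x => sq_nonneg _)
  simp only [add_sub_cancel_left, smul_eq_mul, one_mul] at h4
  linarith

theorem f_ii {f : ℝ → ℝ} (hf : MemLp f 2) (x y : ℝ) : IntervalIntegrable f volume x y := by
  have h : LocallyIntegrable f volume := hf.locallyIntegrable (by norm_num)
  exact (LocallyIntegrable.integrableOn_isCompact h isCompact_uIcc).intervalIntegrable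

section sol
variable {w b c : ℝ → ℝ → ℝ}

theorem f_w (H : Sol0 w b c) : f_C2 w := ⟨H.mw, H.tw⟩
theorem f_b (H : Sol0 w b c) : f_C2 b := ⟨H.mb, H.tb⟩
theorem f_c (H : Sol0 w b c) : f_C2 c := ⟨H.mc, H.tc⟩

theorem f_supw (H : Sol0 w b c) {τ : ℝ} (hτ : 0 ≤ τ) (x : ℝ) :
    w τ x ^ 2 ≤ 2 * ((∫ s, w τ s ^ 2) + ∫ s, b τ s ^ 2) :=
  f_sup (H.mw τ hτ) (H.mb τ hτ) (H.ftc τ hτ) x

theorem f_supd (H : Sol0 w b c) {τ s : ℝ} (hτ : 0 ≤ τ) (hs : 0 ≤ s) (x : ℝ) :
    (w τ x - w s x) ^ 2 ≤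
      2 * ((∫ y, (w τ y - w s y) ^ 2) + ∫ y, (b τ y - b s y) ^ 2) := by
  refine f_sup (f := fun y => w τ y - w s y) (f' := fun y => b τ y - b s y)
    ((H.mw τ hτ).sub (H.mw s hs)) ((H.mb τ hτ).sub (H.mb s hs)) ?_ x
  intro x y
  rw [intervalIntegral.integral_sub, ← H.ftc τ hτ, ← H.ftc s hs]
  · ring
  · exact f_ii (H.mb τ hτ) x y
  · exact f_ii (H.mb s hs) x y

theorem f_C2.wmul (H : Sol0 w b c) {F : ℝ → ℝ → ℝ} (hF : f_C2 F) :
    f_C2 (fun τ x => w τ x * F τ x) where
  mem τ hτ := by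
    refine ((hF.mem τ hτ).const_mul (√(2 * ((∫ s, w τ s ^ 2) + ∫ s, b τ s ^ 2)))).mono
      ((H.cw τ hτ).aestronglyMeasurable.mul (hF.mem τ hτ).aestronglyMeasurable) ?_
    filter_upwards with x
    rw [norm_mul, norm_mul, Real.norm_eq_abs, Real.norm_eq_abs (√_),
      abs_of_nonneg (Real.sqrt_nonneg _)]
    exact mul_le_mul_of_nonneg_right (Real.abs_le_sqrt (f_supw H hτ x)) (norm_nonneg _)
  lim s hs := by
    set S : ℝ → ℝ := fun τ => 2 * ((∫ y, (w τ y - w s y) ^ 2) + ∫ y, (b τ y - b s y) ^ 2) with hS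
    set K : ℝ := 2 * ((∫ y, w s y ^ 2) + ∫ y, b s y ^ 2) with hK
    have hS0 : Tendsto S (𝓝[Ici 0] s) (𝓝 0) := by
      simpa using ((H.tw s hs).add (H.tb s hs)).const_mul 2
    have hb : Tendsto (fun τ => 2 * (2 * K + 2 * S τ) * (∫ x, (F τ x - F s x) ^ 2) +
        2 * S τ * ∫ x, F s x ^ 2) (𝓝[Ici 0] s) (𝓝 0) := by
      have h1 := ((hS0.const_mul 2).const_add (2 * K)).const_mul 2
      have h2 := (h1.mul (hF.lim s hs)).add ((hS0.const_mul 2).mul_const (∫ x, F s x ^ 2))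
      simpa using h2
    refine squeeze_zero' (Eventually.of_forall fun p => integral_nonneg fun x => sq_nonneg _)
      ?_ hb
    filter_upwards [eventually_mem_nhdsWithin] with τ hτ
    have d1 : MemLp (fun x => F τ x - F s x) 2 := (hF.mem τ hτ).sub (hF.mem s hs)
    have i1 : Integrable (fun x => (F τ x - F s x) ^ 2) := d1.integrable_sq
    have i2 : Integrable (fun x => F s x ^ 2) := (hF.mem s hs).integrable_sq
    rw [← integral_const_mul, ← integral_const_mul, ← integral_add (i1.const_mul _)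
      (i2.const_mul _)]
    refine integral_mono_of_nonneg (Eventually.of_forall fun x => sq_nonneg _)
      ((i1.const_mul _).add (i2.const_mul _)) (Eventually.of_forall fun x => ?_)
    simp only
    have a1 : w s x ^ 2 ≤ K := f_supw H hs x
    have a2 : (w τ x - w s x) ^ 2 ≤ S τ := f_supd H hτ hs x
    have a3 : w τ x ^ 2 ≤ 2 * K + 2 * S τ := by
      nlinarith [sq_nonneg (w s x - (w τ x - w s x))]
    have a4 : (w τ x * F τ x - w s x * F s x) ^ 2 ≤
        2 * (w τ x ^ 2 * (F τ x - F s x) ^ 2) + 2 * ((w τ x - w s x) ^ 2 * F s x ^ 2) := by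
      nlinarith [sq_nonneg (w τ x * (F τ x - F s x) - (w τ x - w s x) * F s x)]
    have a5 := mul_le_mul_of_nonneg_right a3 (sq_nonneg (F τ x - F s x))
    have a6 := mul_le_mul_of_nonneg_right a2 (sq_nonneg (F s x))
    linarith

/-- the first equation tested with `L²` functions -/
theorem f_test (h1 : S_SUP) (H : Sol0 w b c) {u : ℝ → ℝ} (hu : MemLp u 2) {s t : ℝ}
    (hs : 0 ≤ s) (hst : s ≤ t) :
    (∫ x, w t x * u x) - ∫ x, w s x * u x = ∫ τ in s..t, ∫ x, c τ x * u x := by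
  have ht : 0 ≤ t := hs.trans hst
  obtain ⟨M, hM⟩ := (h1 w b c H).1 t ht
  have hM0 : 0 ≤ M := (integral_nonneg fun x => sq_nonneg _).trans (hM 0 ⟨le_rfl, ht⟩).2.1
  have key : ∀ ε : ℝ, 0 < ε → |((∫ x, w t x * u x) - ∫ x, w s x * u x) -
      ∫ τ in s..t, ∫ x, c τ x * u x| ≤ (2 * √M + √M * (t - s)) * ε := by
    intro ε hε
    obtain ⟨φ, hφ1, hφ2, hφ3⟩ := hu.exist_eLpNorm_sub_le (by norm_num) (by norm_num) hε
    have hφ : MemLp φ 2 := hφ2.continuous.memLp_of_hasCompactSupport hφ1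
    have hd : MemLp (fun x => u x - φ x) 2 := hu.sub hφ
    have hd2 : √(∫ x, (u x - φ x) ^ 2) ≤ ε := by
      have e := hd.eLpNorm_eq_integral_rpow_norm (by norm_num) (by norm_num)
      have h3 : ENNReal.ofReal ((∫ a, ‖u a - φ a‖ ^ (2 : ENNReal).toReal) ^
          ((2 : ENNReal).toReal)⁻¹) ≤ ENNReal.ofReal ε := by
        rw [← e]
        exact hφ3
      rw [ENNReal.ofReal_le_ofReal_iff hε.le] at h3
      rw [Real.sqrt_eq_rpow]
      convert h3 using 2
      · congr 1
        funext x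
        simp
      · norm_num
    have b1 : ∀ {f : ℝ → ℝ}, MemLp f 2 → ∫ x, f x ^ 2 ≤ M →
        |(∫ x, f x * u x) - ∫ x, f x * φ x| ≤ √M * ε := by
      intro f hf hfM
      have j1 : Integrable (fun x => f x * u x) := hf.integrable_mul (q := 2) hu
      have j2 : Integrable (fun x => f x * φ x) := hf.integrable_mul (q := 2) hφ
      have e : (∫ x, f x * u x) - ∫ x, f x * φ x = ∫ x, f x * (u x - φ x) := by
        rw [← integral_sub j1 j2]
        congr 1
        funext x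
        ring
      rw [e]
      refine (f_cs hf hd).trans ?_
      exact mul_le_mul (Real.sqrt_le_sqrt hfM) hd2 (Real.sqrt_nonneg _) (Real.sqrt_nonneg _)
    have c1 := b1 (H.mw t ht) (hM t ⟨ht, le_rfl⟩).2.1
    have c2 := b1 (H.mw s hs) (hM s ⟨hs, hst⟩).2.1
    have hsub : uIcc s t ⊆ Ici 0 := by
      rw [uIcc_of_le hst]
      exact fun y hy => hs.trans hy.1
    have k1 : IntervalIntegrable (fun τ => ∫ x, c τ x * u x) volume s t :=
      (((f_c H).pair (f_C2.const hu)).mono hsub).intervalIntegrable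
    have k2 : IntervalIntegrable (fun τ => ∫ x, c τ x * φ x) volume s t :=
      (((f_c H).pair (f_C2.const hφ)).mono hsub).intervalIntegrable
    have c3 : |(∫ τ in s..t, ∫ x, c τ x * u x) - ∫ τ in s..t, ∫ x, c τ x * φ x| ≤
        √M * ε * |t - s| := by
      rw [← intervalIntegral.integral_sub k1 k2, ← Real.norm_eq_abs]
      refine intervalIntegral.norm_integral_le_of_norm_le_const fun τ hτ => ?_
      rw [uIoc_of_le hst] at hτ
      have hτ0 : 0 ≤ τ := hs.trans hτ.1.le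
      exact b1 (H.mc τ hτ0) (hM τ ⟨hτ0, hτ.2⟩).2.2.2
    have c4 := H.eq1 φ hφ2 hφ1 s t hs hst
    rw [abs_of_nonneg (by linarith : (0:ℝ) ≤ t - s)] at c3
    rw [abs_le] at c1 c2 c3 ⊢
    constructor <;> nlinarith [c1.1, c1.2, c2.1, c2.2, c3.1, c3.2]
  by_contra hne
  have hpos : 0 < |((∫ x, w t x * u x) - ∫ x, w s x * u x) -
      ∫ τ in s..t, ∫ x, c τ x * u x| := abs_pos.2 (sub_ne_zero.2 hne)
  set Q := |((∫ x, w t x * u x) - ∫ x, w s x * u x) - ∫ τ in s..t, ∫ x, c τ x * u x| with hQ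
  have hC : 0 ≤ 2 * √M + √M * (t - s) :=
    add_nonneg (by positivity) (mul_nonneg (Real.sqrt_nonneg _) (by linarith))
  have h6 := key (Q / (2 * (2 * √M + √M * (t - s) + 1))) (by positivity)
  have h7 : (2 * √M + √M * (t - s)) * (Q / (2 * (2 * √M + √M * (t - s) + 1))) < Q := by
    rw [mul_div_assoc', div_lt_iff₀ (by positivity)]
    nlinarith
  linarith

/-- the adjoint of the difference -/
theorem f_adj {f v : ℝ → ℝ} (hf : MemLp f 2) (hv : MemLp v 2) (h : ℝ) :
    ∫ x, Df h f x * v x = (∫ x, f x * v (x + -h)) - ∫ x, f x * v x := by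
  have e1 : ∫ x, f x * v (x + -h) = ∫ x, f (x + h) * v x := by
    rw [← f_tr (fun x => f x * v (x + -h)) h]
    congr 1
    funext x
    rw [add_neg_cancel_right]
  have j1 : Integrable (fun x => f (x + h) * v x) := (f_memtr hf h).integrable_mul (q := 2) hv
  have j2 : Integrable (fun x => f x * v x) := hf.integrable_mul (q := 2) hv
  rw [e1, ← integral_sub j1 j2]
  congr 1
  funext x
  unfold Df
  ring

theorem f_H1tr {v v' : ℝ → ℝ} (H : H1c v v') (k : ℝ) :
    H1c (fun x => v (x + k)) (fun x => v' (x + k)) where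
  cont := H.cont.comp (continuous_id.add continuous_const)
  supp := H.supp.comp_homeomorph (Homeomorph.addRight k)
  mem := f_memtr H.mem k
  suppd := by
    obtain ⟨R, hR⟩ := H.suppd
    refine ⟨R + |k|, fun x hx => hR _ ?_⟩
    have h1 : |x| ≤ |x + k| + |k| := by
      have := abs_sub (x + k) k
      rwa [add_sub_cancel_right] at this
    linarith
  ftc := by
    intro x y
    rw [H.ftc, intervalIntegral.integral_comp_add_right (fun x => v' x) k]

theorem f_H1mem {v v' : ℝ → ℝ} (H : H1c v v') : MemLp v 2 :=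
  H.cont.memLp_of_hasCompactSupport H.supp

/-- the product `w b` -/
theorem f_wb (H : Sol0 w b c) : f_C2 (fun τ y => w τ y * b τ y) := f_C2.wmul H (f_b H)

theorem f_q (H : Sol0 w b c) : f_C2 (fun τ y => 2 * w τ y ^ 2 - 6 * w τ y) := by
  have h1 := (f_C2.mul (f_C2.wmul H (f_w H)) (ψ := fun _ => 2) continuous_const (M := 2)
    (by simp)).add (f_C2.mul (f_w H) (ψ := fun _ => -6) continuous_const (M := 6) (by simp))
  have : (fun τ y => 2 * w τ y ^ 2 - 6 * w τ y) =
      fun τ x => 2 * (w τ x * w τ x) + -6 * w τ x := by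
    funext τ x
    ring
  rw [this]
  exact h1

/-- the first part of the increment -/
theorem f_P (h2 : S_H1T) (H : Sol0 w b c) {v v' : ℝ → ℝ} (hv : H1c v v') (h : ℝ) {s t : ℝ}
    (hs : 0 ≤ s) (hst : s ≤ t) :
    (∫ x, Df h (c t) x * v x) - ∫ x, Df h (c s) x * v x = ∫ τ in s..t,
      (-5 * (∫ x, Df h (c τ) x * v x) - (∫ x, Df h (fun y => w τ y * b τ y) x * v' x) +
        ∫ x, Df h (fun y => 2 * w τ y ^ 2 - 6 * w τ y) x * v x) := by
  have ht : 0 ≤ t := hs.trans hst
  have hv1 := f_H1tr hv (-h)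
  have k1 := (h2 w b c H _ _ hv1 s t hs hst).2
  have k2 := (h2 w b c H _ _ hv s t hs hst).2
  have m := f_H1mem hv
  have m1 := f_H1mem hv1
  have hsub : uIcc s t ⊆ Ici 0 := by
    rw [uIcc_of_le hst]
    exact fun y hy => hs.trans hy.1
  have I : ∀ {u u' : ℝ → ℝ}, MemLp u 2 → MemLp u' 2 → IntervalIntegrable (fun τ =>
      -5 * (∫ x, c τ x * u x) - (∫ x, w τ x * b τ x * u' x) +
        ∫ x, (2 * w τ x ^ 2 - 6 * w τ x) * u x) volume s t := by
    intro u u' hu hu'
    refine ContinuousOn.intervalIntegrable ?_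
    refine ContinuousOn.mono ?_ hsub
    exact (((f_c H).pair (f_C2.const hu)).const_mul _ |>.sub
      ((f_wb H).pair (f_C2.const hu'))).add ((f_q H).pair (f_C2.const hu))
  rw [f_adj (H.mc t ht) m, f_adj (H.mc s hs) m]
  have e : (∫ τ in s..t, (-5 * (∫ x, Df h (c τ) x * v x) -
      (∫ x, Df h (fun y => w τ y * b τ y) x * v' x) +
        ∫ x, Df h (fun y => 2 * w τ y ^ 2 - 6 * w τ y) x * v x)) =
      (∫ τ in s..t, (-5 * (∫ x, c τ x * v (x + -h)) - (∫ x, w τ x * b τ x * v' (x + -h)) +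
        ∫ x, (2 * w τ x ^ 2 - 6 * w τ x) * v (x + -h))) -
      ∫ τ in s..t, (-5 * (∫ x, c τ x * v x) - (∫ x, w τ x * b τ x * v' x) +
        ∫ x, (2 * w τ x ^ 2 - 6 * w τ x) * v x) := by
    rw [← intervalIntegral.integral_sub (I m1 hv1.mem) (I m hv.mem)]
    refine intervalIntegral.integral_congr fun τ hτ => ?_
    have hτ0 : 0 ≤ τ := hsub hτ
    rw [f_adj (H.mc τ hτ0) m, f_adj ((f_wb H).mem τ hτ0) hv.mem, f_adj ((f_q H).mem τ hτ0) m]
    ring
  rw [e, ← k1, ← k2]
  ring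

/-- the second part of the increment -/
theorem f_R (h1 : S_SUP) (H : Sol0 w b c) {U : ℝ → ℝ} (hU : MemLp U 2) (h : ℝ) {s t : ℝ}
    (hs : 0 ≤ s) (hst : s ≤ t) :
    (∫ x, Df h (w t) x * U x) - ∫ x, Df h (w s) x * U x =
      ∫ τ in s..t, ∫ x, Df h (c τ) x * U x := by
  have ht : 0 ≤ t := hs.trans hst
  have hU1 := f_memtr hU (-h)
  have k1 := f_test h1 H hU1 hs hst
  have k2 := f_test h1 H hU hs hst
  have hsub : uIcc s t ⊆ Ici 0 := by
    rw [uIcc_of_le hst]
    exact fun y hy => hs.trans hy.1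
  have i1 : IntervalIntegrable (fun τ => ∫ x, c τ x * U (x + -h)) volume s t :=
    (((f_c H).pair (f_C2.const hU1)).mono hsub).intervalIntegrable
  have i2 : IntervalIntegrable (fun τ => ∫ x, c τ x * U x) volume s t :=
    (((f_c H).pair (f_C2.const hU)).mono hsub).intervalIntegrable
  rw [f_adj (H.mw t ht) hU, f_adj (H.mw s hs) hU]
  have e : (∫ τ in s..t, ∫ x, Df h (c τ) x * U x) =
      (∫ τ in s..t, ∫ x, c τ x * U (x + -h)) - ∫ τ in s..t, ∫ x, c τ x * U x := by
    rw [← intervalIntegral.integral_sub i1 i2]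
    refine intervalIntegral.integral_congr fun τ hτ => ?_
    exact f_adj (H.mc τ (hsub hτ)) hU h
  rw [e, ← k1, ← k2]
  ring

end sol

/-- the product rule -/
theorem f_prod {A B β : ℝ → ℝ} (hA : ContDiff ℝ ∞ A) (hβ : MemLp β 2)
    (hB : ∀ x y : ℝ, B y - B x = ∫ s in x..y, β s) (x y : ℝ) :
    A y * B y - A x * B x = ∫ s in x..y, (deriv A s * B s + A s * β s) := by
  have ii : IntervalIntegrable β volume x y := f_ii hβ x y
  have a1 : AbsolutelyContinuousOnInterval A x y :=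
    (hA.of_le (by exact_mod_cast le_top)).contDiffOn.absolutelyContinuousOnInterval
  have a2 : AbsolutelyContinuousOnInterval B x y := by
    have h3 := ii.absolutelyContinuousOnInterval_intervalIntegral (c := x) left_mem_uIcc
    have h4 : AbsolutelyContinuousOnInterval (fun _ : ℝ => B x) x y :=
      (contDiff_const (n := 1)).contDiffOn.absolutelyContinuousOnInterval
    have h5 := h4.fun_add h3
    have : B = fun u => B x + ∫ s in x..u, β s := by
      funext u
      rw [← hB]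
      ring
    rw [this]
    exact h5
  have h6 := a1.integral_deriv_mul_eq_sub a2
  rw [← h6]
  refine intervalIntegral.integral_congr_ae ?_
  filter_upwards [ii.ae_hasDerivAt_integral] with u hu hu'
  have h7 := hu (uIoc_subset_uIcc hu') x left_mem_uIcc
  have h8 : HasDerivAt B (β u) u := by
    have : B = fun u => B x + ∫ s in x..u, β s := by
      funext u
      rw [← hB]
      ring
    rw [this]
    exact h7.const_add _
  rw [h8.deriv]

theorem f_ch : ContDiff ℝ ∞ ch := bmp.contDiff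

theorem f_chs : HasCompactSupport ch := bmp.hasCompactSupport

theorem f_ch0 {x : ℝ} (hx : 10 < |x|) : ch x = 0 := by
  refine bmp.zero_of_le_dist ?_
  show (4 / 5 : ℝ) ≤ dist x 5
  rw [Real.dist_eq]
  have h1 : |x| ≤ |x - 5| + |(5 : ℝ)| := by
    have := abs_add_le (x - 5) 5
    rwa [sub_add_cancel] at this
  rw [abs_of_pos (by norm_num : (0 : ℝ) < 5)] at h1
  linarith

/-- the weight `2 χ χ'` -/
theorem f_dch (x : ℝ) : deriv (fun x => ch x ^ 2) x = 2 * ch x * deriv ch x := by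
  have h : HasDerivAt ch (deriv ch x) x :=
    ((f_ch.differentiable (by simp)) x).hasDerivAt
  have := (h.pow 2).deriv
  simp only [Nat.cast_ofNat, Nat.add_one_sub_one, pow_one] at this
  exact this

theorem f_b1 : ∃ M, ∀ x, |ch x ^ 2| ≤ M := by
  have hc : Continuous (fun x => ch x ^ 2) := f_ch.continuous.pow 2
  have hs : HasCompactSupport (fun x => ch x ^ 2) := by
    have : (fun x => ch x ^ 2) = fun x => ch x * ch x := by
      funext x
      ring
    rw [this]
    exact f_chs.mul_right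
  exact hc.bounded_above_of_compact_support hs

theorem f_b2c : Continuous (fun x => 2 * ch x * deriv ch x) :=
  (continuous_const.mul f_ch.continuous).mul (f_ch.continuous_deriv (by simp))

theorem f_b2 : ∃ M, ∀ x, |2 * ch x * deriv ch x| ≤ M := by
  have hs : HasCompactSupport (fun x => 2 * ch x * deriv ch x) := by
    have : (fun x => 2 * ch x * deriv ch x) = fun x => ch x * (2 * deriv ch x) := by
      funext x
      ring
    rw [this]
    exact f_chs.mul_right
  exact f_b2c.bounded_above_of_compact_support hs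

theorem f_C2.ch {F : ℝ → ℝ → ℝ} (hF : f_C2 F) :
    f_C2 (fun τ x => Pool.Agent.Q82.CW.ch x ^ 2 * F τ x) := by
  obtain ⟨M, hM⟩ := f_b1
  exact hF.mul (f_ch.continuous.pow 2) hM

section sol2
variable {w b c : ℝ → ℝ → ℝ}

theorem f_G (H : Sol0 w b c) (h : ℝ) : f_C2 (fun τ x =>
    2 * ch x * deriv ch x * Df h (w τ) x + ch x ^ 2 * Df h (b τ) x) := by
  obtain ⟨M, hM⟩ := f_b2
  exact (((f_w H).df h).mul f_b2c hM).add ((f_b H).df h).ch

/-- the test function -/
theorem f_H1 (H : Sol0 w b c) (h : ℝ) {s : ℝ} (hs : 0 ≤ s) :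
    H1c (fun x => ch x ^ 2 * Df h (w s) x)
      (fun x => 2 * ch x * deriv ch x * Df h (w s) x + ch x ^ 2 * Df h (b s) x) where
  cont := by
    refine (f_ch.continuous.pow 2).mul ?_
    exact ((H.cw s hs).comp (continuous_id.add continuous_const)).sub (H.cw s hs)
  supp := by
    have : (fun x => ch x ^ 2 * Df h (w s) x) = fun x => ch x * (ch x * Df h (w s) x) := by
      funext x
      ring
    rw [this]
    exact f_chs.mul_right
  mem := (f_G H h).mem s hs
  suppd := by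
    refine ⟨10, fun x hx => ?_⟩
    rw [f_ch0 hx]
    ring
  ftc := by
    intro x y
    have hB : ∀ x y : ℝ, Df h (w s) y - Df h (w s) x = ∫ u in x..y, Df h (b s) u := by
      intro x y
      unfold Df
      rw [intervalIntegral.integral_sub (f_ii (f_memtr (H.mb s hs) h) x y)
        (f_ii (H.mb s hs) x y), intervalIntegral.integral_comp_add_right (fun u => b s u) h,
        ← H.ftc s hs, ← H.ftc s hs]
      ring
    have := f_prod (A := fun x => ch x ^ 2) (f_ch.pow 2) (((f_b H).df h).mem s hs) hB x y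
    simp only [f_dch] at this
    exact this

/-- the increment of the pairing -/
theorem f_inc (h1 : S_SUP) (h2 : S_H1T) (H : Sol0 w b c) (h : ℝ) {s t : ℝ} (hs : 0 ≤ s)
    (hst : s ≤ t) : FF w c h t - FF w c h s = ∫ τ in s..t,
      ((-5 * (∫ x, Df h (c τ) x * (ch x ^ 2 * Df h (w s) x)) -
        (∫ x, Df h (fun y => w τ y * b τ y) x *
          (2 * ch x * deriv ch x * Df h (w s) x + ch x ^ 2 * Df h (b s) x)) +
        ∫ x, Df h (fun y => 2 * w τ y ^ 2 - 6 * w τ y) x * (ch x ^ 2 * Df h (w s) x)) +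
      ∫ x, Df h (c τ) x * (ch x ^ 2 * Df h (c t) x)) := by
  have ht : 0 ≤ t := hs.trans hst
  have hsub : uIcc s t ⊆ Ici 0 := by
    rw [uIcc_of_le hst]
    exact fun y hy => hs.trans hy.1
  have hv := f_H1 H h hs
  have hU : MemLp (fun x => ch x ^ 2 * Df h (c t) x) 2 := (((f_c H).df h).ch).mem t ht
  have hv' : MemLp (fun x => ch x ^ 2 * Df h (w s) x) 2 := f_H1mem hv
  have e1 := f_P h2 H hv h hs hst
  have e2 := f_R h1 H hU h hs hst
  rw [intervalIntegral.integral_add, ← e1, ← e2]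
  · have e3 : ∀ r : ℝ, (∫ x, Df h (w r) x * (ch x ^ 2 * Df h (c t) x)) =
        ∫ x, Df h (c t) x * (ch x ^ 2 * Df h (w r) x) := by
      intro r
      congr 1
      funext x
      ring
    rw [e3, e3]
    unfold FF
    ring
  · refine ContinuousOn.intervalIntegrable ?_
    refine ContinuousOn.mono ?_ hsub
    exact ((((f_c H).df h).pair (f_C2.const hv')).const_mul _ |>.sub
      (((f_wb H).df h).pair (f_C2.const hv.mem))).add
      (((f_q H).df h).pair (f_C2.const hv'))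
  · refine ContinuousOn.intervalIntegrable ?_
    exact (((f_c H).df h).pair (f_C2.const hU)).mono hsub

theorem f_T1 (h τ : ℝ) : (∫ x, Df h (c τ) x ^ 2 * ch x ^ 2) =
    ∫ x, Df h (c τ) x * (ch x ^ 2 * Df h (c τ) x) := by
  congr 1
  funext x
  ring

theorem f_contF (H : Sol0 w b c) (h : ℝ) : ContinuousOn (FF w c h) (Ici 0) :=
  ((f_c H).df h).pair ((f_w H).df h).ch

theorem f_contG (H : Sol0 w b c) (h : ℝ) : ContinuousOn (GG w b c h) (Ici 0) := by
  have a1 : ContinuousOn (fun τ => ∫ x, Df h (c τ) x ^ 2 * ch x ^ 2) (Ici 0) := by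
    simp only [f_T1]
    exact ((f_c H).df h).pair ((f_c H).df h).ch
  have a2 : ContinuousOn (fun τ => 5 * ∫ x, Df h (c τ) x * (ch x ^ 2 * Df h (w τ) x)) (Ici 0) :=
    (((f_c H).df h).pair ((f_w H).df h).ch).const_mul _
  have a3 := ((f_wb H).df h).pair (f_G H h)
  have a4 := ((f_q H).df h).pair ((f_w H).df h).ch
  exact ((a1.sub a2).sub a3).add a4

theorem f_deriv (h1 : S_SUP) (h2 : S_H1T) (H : Sol0 w b c) (h : ℝ) {s : ℝ} (hs : 0 ≤ s) :
    HasDerivWithinAt (FF w c h) (GG w b c h s) (Ioi s) s := by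
  set E : ℝ × ℝ → ℝ := fun p =>
      ((-5 * (∫ x, Df h (c p.1) x * (ch x ^ 2 * Df h (w s) x)) -
        (∫ x, Df h (fun y => w p.1 y * b p.1 y) x *
          (2 * ch x * deriv ch x * Df h (w s) x + ch x ^ 2 * Df h (b s) x)) +
        ∫ x, Df h (fun y => 2 * w p.1 y ^ 2 - 6 * w p.1 y) x * (ch x ^ 2 * Df h (w s) x)) +
      ∫ x, Df h (c p.1) x * (ch x ^ 2 * Df h (c p.2) x)) with hE
  have hv := f_H1 H h hs
  have hv' : MemLp (fun x => ch x ^ 2 * Df h (w s) x) 2 := f_H1mem hv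
  have hlim : Tendsto E (𝓝[Ici 0] s ×ˢ 𝓝[Ici 0] s) (𝓝 (GG w b c h s)) := by
    have t1 := ((f_c H).df h).pairT (f_C2.const hv') hs
    have t2 := ((f_wb H).df h).pairT (f_C2.const hv.mem) hs
    have t3 := ((f_q H).df h).pairT (f_C2.const hv') hs
    have t4 := ((f_c H).df h).pairT ((f_c H).df h).ch hs
    have t5 := (((t1.const_mul (-5)).sub t2).add t3).add t4
    have e : GG w b c h s = ((-5 * (∫ x, Df h (c s) x * (ch x ^ 2 * Df h (w s) x)) -
        (∫ x, Df h (fun y => w s y * b s y) x *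
          (2 * ch x * deriv ch x * Df h (w s) x + ch x ^ 2 * Df h (b s) x)) +
        ∫ x, Df h (fun y => 2 * w s y ^ 2 - 6 * w s y) x * (ch x ^ 2 * Df h (w s) x)) +
      ∫ x, Df h (c s) x * (ch x ^ 2 * Df h (c s) x)) := by
      unfold GG
      rw [f_T1]
      ring
    rw [e]
    exact t5
  rw [hasDerivWithinAt_iff_isLittleO, Asymptotics.isLittleO_iff]
  intro ε hε
  have hball : ∀ᶠ p in 𝓝[Ici 0] s ×ˢ 𝓝[Ici 0] s, |E p - GG w b c h s| ≤ ε := by
    have := hlim.eventually (Metric.closedBall_mem_nhds _ hε)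
    filter_upwards [this] with p hp
    rwa [Real.dist_eq] at hp
  obtain ⟨U, hU, hUE'⟩ := Filter.mem_prod_same_iff.1 hball
  have hUE : ∀ x ∈ U, ∀ y ∈ U, |E (x, y) - GG w b c h s| ≤ ε := fun x hx y hy =>
    hUE' (Set.mk_mem_prod hx hy)
  rw [mem_nhdsWithin_iff_exists_mem_nhds_inter] at hU
  obtain ⟨V, hV, hVU⟩ := hU
  obtain ⟨δ, hδ, hδV⟩ := Metric.mem_nhds_iff.1 hV
  have hnear : ∀ᶠ t in 𝓝[Ioi s] s, t ∈ Ioo s (s + δ) := Ioo_mem_nhdsGT (by linarith)
  filter_upwards [hnear] with t ht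
  have hin : ∀ r ∈ Icc s t, r ∈ U := by
    intro r hr
    refine hVU ⟨hδV ?_, hs.trans hr.1⟩
    rw [Metric.mem_ball, Real.dist_eq, abs_lt]
    constructor
    · linarith [hr.1]
    · linarith [hr.2, ht.2]
  have e := f_inc h1 h2 H h hs ht.1.le
  have hsub : uIcc s t ⊆ Ici 0 := by
    rw [uIcc_of_le ht.1.le]
    exact fun y hy => hs.trans hy.1
  have hU' : MemLp (fun x => ch x ^ 2 * Df h (c t) x) 2 :=
    (((f_c H).df h).ch).mem t (hs.trans ht.1.le)
  have hint : IntervalIntegrable (fun τ => E (τ, t)) volume s t := by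
    refine ContinuousOn.intervalIntegrable ?_
    refine ContinuousOn.mono ?_ hsub
    exact (((((f_c H).df h).pair (f_C2.const hv')).const_mul _ |>.sub
      (((f_wb H).df h).pair (f_C2.const hv.mem))).add
      (((f_q H).df h).pair (f_C2.const hv'))).add (((f_c H).df h).pair (f_C2.const hU'))
  have e2 : FF w c h t - FF w c h s - (t - s) • GG w b c h s =
      ∫ τ in s..t, (E (τ, t) - GG w b c h s) := by
    rw [intervalIntegral.integral_sub hint intervalIntegrable_const,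
      intervalIntegral.integral_const, e]
  rw [e2]
  refine (intervalIntegral.norm_integral_le_of_norm_le_const (C := ε) fun τ hτ => ?_).trans ?_
  · rw [uIoc_of_le ht.1.le] at hτ
    rw [Real.norm_eq_abs]
    exact hUE τ (hin τ ⟨hτ.1.le, hτ.2⟩) t (hin t ⟨ht.1.le, le_rfl⟩)
  · rw [Real.norm_eq_abs]

end sol2

theorem ff1 (h1 : S_SUP) (h2 : S_H1T) : S_F := by
  intro w b c H h _ _
  refine ⟨f_contF H h, f_contG H h, fun t ht => ?_⟩
  have hsub : uIcc 0 t ⊆ Ici 0 := by
    rw [uIcc_of_le ht]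
    exact fun y hy => hy.1
  symm
  refine intervalIntegral.integral_eq_sub_of_hasDeriv_right ((f_contF H h).mono hsub) ?_
    ((f_contG H h).mono hsub).intervalIntegrable
  intro x hx
  rw [min_eq_left ht] at hx
  exact f_deriv h1 h2 H h hx.1.le

end Pool.Agent.Q82.CW
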