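import Pool.Agent.Q37.GU.Stm
import Pool.Agent.Q37.GU.Basic

/-!
Lemma job T4 of project GU (helper37), proved by helper130: charts which are domains. Adapted from
`smooth_chart` in `Pool/Agent/W327/F4/Chart.lean`.
-/

open CategoryTheory CategoryTheory.Limits AlgebraicGeometry Topology
open scoped TensorProduct

namespace Q130.GU_T4

open Pool.Agent.Q37.GU Pool.Agent.W481 Pool.Agent.W327.F4

theorem t4 (h5 : S_P5) : S_T4 := by
  intro X hX x
  obtain ⟨A₀, _, _, i, hi, -, φ₀, hφ₀⟩ := exists_affine_chart X x ⊤ (mem_top x)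
  have h1 : Smooth (i.left ≫ X.hom) := inferInstance
  rw [Over.w i] at h1
  have h2 : Algebra.Smooth ℂ A₀ := smooth_algebra h1
  obtain ⟨e, -, he1, hd⟩ := h5 A₀ φ₀
  have hf' : φ₀.hom e ≠ 0 := by
    rw [he1]
    exact one_ne_zero
  have hop := openImm_away e
  have h3 : Algebra.Smooth A₀ (Localization.Away e) := Algebra.Smooth.of_isLocalization_Away e
  have h4 : Algebra.Smooth ℂ (Localization.Away e) := Algebra.Smooth.comp ℂ A₀ _
  refine ⟨Localization.Away e, inferInstance, inferInstance, hd, h4,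
    specMap (IsScalarTower.toAlgHom ℂ A₀ (Localization.Away e)) ≫ i, ?_, extSp e φ₀ hf', ?_⟩
  · rw [Over.comp_left]
    exact inferInstance
  · rw [Pool.Agent.W327.F4.push_comp, ← spPt_comap, comap_extSp, hφ₀]

end Q130.GU_T4
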