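import Pool.Agent.Q88.MK.Stm

/-!
Lemma job STA of project MK (helper88), proved by helper130: the start of the recursion.
-/

set_option autoImplicit false

open Set MvPolynomial

noncomputable section

namespace Pool.Agent.Q130.MK

open Pool.Agent.Q88.MK

lemma two_mul_le_exp {u : ℝ} (hu : 0 ≤ u) : 2 * u ≤ Real.exp u := by
  have h1 : u / 2 + 1 ≤ Real.exp (u / 2) := Real.add_one_le_exp _
  have h2 : Real.exp u = Real.exp (u / 2) ^ 2 := by
    rw [← Real.exp_nat_mul]
    congr 1
    push_cast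
    ring
  rw [h2]
  have h3 : (u / 2 + 1) ^ 2 ≤ Real.exp (u / 2) ^ 2 := pow_le_pow_left₀ (by linarith) h1 2
  nlinarith [sq_nonneg (1 - u / 2)]

theorem sta : S_sta := by
  intro s p δ _ _ hδ hδ1
  set M : ℕ := ⌈1 / δ⌉₊ with hM
  have hMδ : 1 / δ ≤ (M : ℝ) := Nat.le_ceil _
  have hMpos : (0 : ℝ) < M := lt_of_lt_of_le (by positivity) hMδ
  have hev : ∀ x y : ℝ, ev ((1 - X 0 : Pol) ^ M) x y = (1 - x) ^ M := by
    intro x y
    simp [ev]
  refine ⟨(1 - X 0 : Pol) ^ M, ?_, ?_, ?_⟩
  · refine (MvPolynomial.totalDegree_pow _ _).trans ?_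
    have h1 : (1 - X 0 : Pol).totalDegree ≤ 1 := by
      refine (MvPolynomial.totalDegree_sub _ _).trans ?_
      rw [MvPolynomial.totalDegree_one, MvPolynomial.totalDegree_X]
      simp
    calc M * (1 - X 0 : Pol).totalDegree ≤ M * 1 := Nat.mul_le_mul_left _ h1
      _ = M := Nat.mul_one _
  · rw [hev]
    simp
  · rintro x y ⟨hx0, hx1, -, -⟩
    rw [hev]
    have h0 : 0 ≤ (1 - x) ^ M := pow_nonneg (by linarith) _
    have h1 : (1 - x) ^ M ≤ 1 := pow_le_one₀ (by linarith) (by linarith)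
    rw [abs_of_nonneg h0]
    refine ⟨h1, fun hx => ?_⟩
    have hxpos : 0 < x := lt_of_lt_of_le hδ hx
    have h2 : (1 - x) ^ M ≤ Real.exp (-(M * x)) := by
      have h3 : 1 - x ≤ Real.exp (-x) := by
        have := Real.add_one_le_exp (-x)
        linarith
      calc (1 - x) ^ M ≤ Real.exp (-x) ^ M := pow_le_pow_left₀ (by linarith) h3 M
        _ = Real.exp (-(M * x)) := by
          rw [← Real.exp_nat_mul]
          congr 1
          ring
    have h4 := two_mul_le_exp (u := M * x) (by positivity)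
    have h5 : Real.exp (-(M * x)) * (2 * (M * x)) ≤ 1 := by
      calc Real.exp (-(M * x)) * (2 * (M * x)) ≤ Real.exp (-(M * x)) * Real.exp (M * x) :=
            mul_le_mul_of_nonneg_left h4 (Real.exp_pos _).le
        _ = 1 := by
          rw [← Real.exp_add]
          simp
    have h6 : (1 - x) ^ M * (2 * (M * x)) ≤ 1 :=
      (mul_le_mul_of_nonneg_right h2 (by positivity)).trans h5
    have h7 : 1 ≤ M * δ := by
      rw [div_le_iff₀ hδ] at hMδ
      exact hMδ
    rw [show (1 : ℝ) / 2 * (δ / x) = δ / (2 * x) by field_simp, le_div_iff₀ (by positivity)]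
    have h8 : (1 - x) ^ M * (2 * x) * (M * δ) ≤ δ := by
      calc (1 - x) ^ M * (2 * x) * (M * δ) = (1 - x) ^ M * (2 * (M * x)) * δ := by ring
        _ ≤ 1 * δ := mul_le_mul_of_nonneg_right h6 hδ.le
        _ = δ := one_mul _
    calc (1 - x) ^ M * (2 * x) = (1 - x) ^ M * (2 * x) * 1 := (mul_one _).symm
      _ ≤ (1 - x) ^ M * (2 * x) * (M * δ) :=
        mul_le_mul_of_nonneg_left h7 (by positivity)
      _ ≤ δ := h8

end Pool.Agent.Q130.MK
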