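import Mathlib
import Pool.Agent.Q49.MR.Stm

/-!
# Project MR of helper49, job P2A
-/

set_option autoImplicit false
set_option linter.style.haveILetI false

open Module

namespace Q130.MR_P2A

open Q49.MR

section

variable {K L : Type} [Field K] [Finite K] [Field L] [Finite L] [Algebra K L] {σ : L ≃ₐ[K] L}

theorem twoL (h : Cyc σ) : (2 : L) ≠ 0 := by
  have h1 := h.two
  intro h2
  apply h1
  apply (algebraMap K L).injective
  rw [map_ofNat, map_zero, h2]

theorem card_odd (h : Cyc σ) : Odd (Nat.card K) := by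
  haveI := Fintype.ofFinite K
  rw [Nat.card_eq_fintype_card]
  have h2 : ringChar K ≠ 2 := by
    intro h3
    apply h.two
    have h4 := ringChar.Nat.cast_ringChar (R := K)
    rw [h3] at h4
    exact_mod_cast h4
  rw [← Nat.not_even_iff_odd]
  intro h3
  exact h2 (FiniteField.even_card_iff_char_two.2 (Nat.even_iff.1 h3))

theorem card_castL (h : Cyc σ) : ((Nat.card K : ℕ) : L) = 0 := by
  haveI := Fintype.ofFinite K
  rw [Nat.card_eq_fintype_card, ← map_natCast (algebraMap K L), FiniteField.cast_card_eq_zero,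
    map_zero]

theorem cardL (h : Cyc σ) : Nat.card L = Nat.card K ^ 8 := by
  rw [← h.rank]
  exact Module.natCard_eq_pow_finrank

/-- a primitive root of order `q ^ 2 - 1` -/
theorem prim (h : Cyc σ) : ∃ ξ : L, IsPrimitiveRoot ξ (Nat.card K ^ 2 - 1) := by
  haveI := Fintype.ofFinite L
  haveI := Fintype.ofFinite K
  have hq : 2 ≤ Nat.card K := Finite.one_lt_card
  obtain ⟨ω, hω⟩ := IsCyclic.exists_generator (α := Lˣ)
  have h1 : orderOf ω = Nat.card Lˣ := orderOf_eq_card_of_forall_mem_zpowers hω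
  have h2 : Nat.card Lˣ = Nat.card L - 1 := Nat.card_units L
  rw [h2, cardL h] at h1
  have h3 : IsPrimitiveRoot ω (Nat.card K ^ 8 - 1) := by
    rw [← h1]
    exact IsPrimitiveRoot.orderOf ω
  have h4 : IsPrimitiveRoot (ω : L) (Nat.card K ^ 8 - 1) := IsPrimitiveRoot.coe_units_iff.2 h3
  have h5 : Nat.card K ^ 8 - 1 = (Nat.card K ^ 6 + Nat.card K ^ 4 + Nat.card K ^ 2 + 1) *
      (Nat.card K ^ 2 - 1) := by
    have h6 : 1 ≤ Nat.card K ^ 2 := Nat.one_le_pow _ _ (by omega)
    have h7 : 1 ≤ Nat.card K ^ 8 := Nat.one_le_pow _ _ (by omega)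
    zify [h6, h7]
    ring
  have h6 : 0 < Nat.card K ^ 8 - 1 := by
    have : 1 < Nat.card K ^ 8 := Nat.one_lt_pow (by norm_num) (by omega)
    omega
  exact ⟨_, h4.pow h6 h5⟩

end

theorem p2a (h1 : S_POLY) (h2 : S_K2) (h3 : S_FX) (h4 : S_B8) (h5 : S_TAU) (h6 : S_DIM) :
    S_P2A := by
  intro K L _ _ _ _ _ σ hC κ hκ4 hκ hΔ
  haveI := Fintype.ofFinite K
  have hq2 : 2 ≤ Nat.card K := Finite.one_lt_card
  have hqo := card_odd hC
  have hL2 := twoL hC
  have hqL := card_castL hC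
  by_contra hcon
  push Not at hcon
  -- an element of `Em`
  obtain ⟨p0, hp0, hp00⟩ : ∃ p0 ∈ Em σ, p0 ≠ 0 := by
    have hd := (h6 K L σ hC).2
    by_contra hno
    push Not at hno
    have : Em σ = ⊥ := (Submodule.eq_bot_iff _).2 hno
    rw [this] at hd
    simp at hd
  have hp0' : σ (σ p0) = -p0 := hp0
  have hP1 : σ p0 ≠ 0 := (map_ne_zero_iff σ σ.injective).2 hp00
  -- facts about `al` and `be`
  have hal2 : σ (σ (al σ κ)) = al σ κ := by
    simp only [al, map_mul, map_sub, map_one, map_pow, hκ4]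
    ring
  have hbe : σ (be σ κ) = be σ κ := by
    simp only [be, map_mul, map_sub, map_add, map_ofNat, map_pow, hκ4]
    ring
  have hκ' : (σ (σ κ)) ^ 2 ≠ 1 := by
    intro h
    apply hκ
    have h7 := congrArg (fun z => σ (σ z)) h
    simpa only [map_pow, map_one, hκ4] using h7
  have hal0 : al σ κ ≠ 0 := by
    unfold al
    exact mul_ne_zero (sub_ne_zero.2 (Ne.symm hκ)) (sub_ne_zero.2 (Ne.symm hκ'))
  have hal1 : σ (al σ κ) ≠ 0 := (map_ne_zero_iff σ σ.injective).2 hal0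
  -- the values of `FF`
  have hFσ : ∀ p, σ (σ p) = -p → σ (FF σ κ p) = FF σ κ p := by
    intro p hp
    simp only [FF, map_mul, map_add, map_pow, hal2, hbe, hp]
    ring
  obtain ⟨h, hh⟩ := hqo
  have hhalf : (Nat.card K - 1) / 2 = h := by omega
  have hhalf' : Fintype.card K / 2 = h := by
    rw [← Nat.card_eq_fintype_card]
    omega
  have hchar : ringChar K ≠ 2 := by
    intro h7
    apply hC.two
    have h8 := ringChar.Nat.cast_ringChar (R := K)
    rw [h7] at h8
    exact_mod_cast h8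
  have hFh : ∀ p, σ (σ p) = -p → p ≠ 0 → (FF σ κ p) ^ h = -1 := by
    intro p hp hp1
    obtain ⟨c, hc⟩ := h3 K L σ hC _ (hFσ p hp)
    have hsq : ¬ IsSquare c := by
      rintro ⟨r, hr⟩
      exact hcon p hp hp1 r (by rw [← hc, hr, sq])
    have hc0 : c ≠ 0 := by
      rintro rfl
      exact hsq ⟨0, by simp⟩
    have h8 := FiniteField.pow_dichotomy hchar hc0
    rw [hhalf'] at h8
    have h9 : c ^ h = -1 := by
      rcases h8 with h8 | h8
      · exact absurd ((FiniteField.isSquare_iff hchar hc0).2 (by rw [hhalf']; exact h8)) hsq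
      · exact h8
    rw [← hc, ← map_pow, h9, map_neg, map_one]
  -- roots of unity
  obtain ⟨ξ, hξ⟩ := prim hC
  have hq21 : 0 < Nat.card K ^ 2 - 1 := by
    have : 1 < Nat.card K ^ 2 := Nat.one_lt_pow (by norm_num) (by omega)
    omega
  have hfac : Nat.card K ^ 2 - 1 = (Nat.card K - 1) * (Nat.card K + 1) := by
    have h6 : 1 ≤ Nat.card K ^ 2 := Nat.one_le_pow _ _ (by omega)
    have h7 : 1 ≤ Nat.card K := by omega
    zify [h6, h7]
    ring
  have hη : IsPrimitiveRoot (ξ ^ (Nat.card K - 1)) (Nat.card K + 1) := hξ.pow hq21 hfac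
  -- every root is `g ^ (q - 1)` with `g` fixed by `σ ^ 2`
  have hroot : ∀ w : L, w ^ (Nat.card K + 1) = 1 → ∃ g : L, g ≠ 0 ∧ σ (σ g) = g ∧
      w = g ^ (Nat.card K - 1) := by
    intro w hw
    obtain ⟨j, -, hj⟩ := hη.eq_pow_of_pow_eq_one hw
    have hξ0 : ξ ≠ 0 := hξ.ne_zero (by omega)
    refine ⟨ξ ^ j, pow_ne_zero _ hξ0, ?_, by rw [← hj, ← pow_mul, ← pow_mul, mul_comm]⟩
    obtain ⟨s, -, hs⟩ := hC.pow
    have h7 : ξ ^ (Nat.card K ^ 2) = ξ := by
      have h8 : Nat.card K ^ 2 = (Nat.card K ^ 2 - 1) + 1 := by omega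
      rw [h8, pow_succ, hξ.pow_eq_one, one_mul]
    have h9 : ∀ n : ℕ, ξ ^ ((Nat.card K ^ 2) ^ n) = ξ := by
      intro n
      induction n with
      | zero => simp
      | succ n ih => rw [pow_succ, pow_mul, ih, h7]
    have h10 : σ (σ ξ) = ξ := by
      rw [hs ξ, map_pow, hs ξ, ← pow_mul, ← pow_add]
      have h11 : Nat.card K ^ (s + s) = (Nat.card K ^ 2) ^ s := by
        rw [← pow_mul, two_mul]
      rw [h11, h9]
    rw [map_pow, map_pow, h10]
  -- the main identity
  set ζ : L := (σ p0) ^ 2 / p0 ^ 2 with hζ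
  have hζ0 : ζ ≠ 0 := div_ne_zero (pow_ne_zero _ hP1) (pow_ne_zero _ hp00)
  have hmain : ∀ w : L, w ^ (Nat.card K + 1) = 1 →
      w ^ 2 * (al σ κ * ζ⁻¹ + be σ κ * w ^ 2 + σ (al σ κ) * ζ * w ^ 4) ^ ((Nat.card K - 1) / 2) =
        1 := by
    intro w hw
    rw [hhalf]
    obtain ⟨g, hg0, hg, hwg⟩ := hroot w hw
    have hσg : σ g = g * w := by
      rw [h2 K L σ hC g hg, hwg, ← pow_succ']
      congr 1
      omega
    have hw0 : w ≠ 0 := by rw [hwg]; exact pow_ne_zero _ hg0
    have hp : σ (σ (g * p0)) = -(g * p0) := by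
      rw [map_mul, map_mul, hg, hp0']
      ring
    have hpne : g * p0 ≠ 0 := mul_ne_zero hg0 hp00
    have hF := hFh (g * p0) hp hpne
    have hσp : σ (g * p0) = g * w * σ p0 := by rw [map_mul, hσg]
    set m : L := g * p0 * σ (g * p0) with hm
    have hm0 : m ≠ 0 := mul_ne_zero hpne ((map_ne_zero_iff σ σ.injective).2 hpne)
    have hσm : σ m = -m := by
      rw [hm, map_mul, hp]
      ring
    have hσσm : σ (σ m) = m := by rw [hσm, map_neg, hσm, neg_neg]
    have hmq : m ^ Nat.card K = -m := by rw [← h2 K L σ hC m hσσm, hσm]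
    have hmh : (m ^ 2) ^ h = -1 := by
      rw [← pow_mul]
      have h7 : m ^ (2 * h) * m = -1 * m := by
        rw [← pow_succ, ← hh, hmq]
        ring
      exact mul_right_cancel₀ hm0 h7
    have hid : FF σ κ (g * p0) * w ^ 2 =
        m ^ 2 * (al σ κ * ζ⁻¹ + be σ κ * w ^ 2 + σ (al σ κ) * ζ * w ^ 4) := by
      simp only [FF, hm, hσp, hζ]
      field_simp
    have h7 : (FF σ κ (g * p0) * w ^ 2) ^ h =
        (m ^ 2 * (al σ κ * ζ⁻¹ + be σ κ * w ^ 2 + σ (al σ κ) * ζ * w ^ 4)) ^ h := by rw [hid]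
    rw [mul_pow, mul_pow (m ^ 2), hF, hmh] at h7
    have h8 : (al σ κ * ζ⁻¹ + be σ κ * w ^ 2 + σ (al σ κ) * ζ * w ^ 4) ^ h = (w ^ 2) ^ h := by
      linear_combination h7
    rw [h8, ← pow_mul, ← pow_add, show 2 + 2 * h = Nat.card K + 1 by omega, hw]
  have hdisc : (be σ κ) ^ 2 - 4 * (al σ κ * ζ⁻¹) * (σ (al σ κ) * ζ) ≠ 0 := by
    have h7 : (be σ κ) ^ 2 - 4 * (al σ κ * ζ⁻¹) * (σ (al σ κ) * ζ) =
        (be σ κ) ^ 2 - 4 * al σ κ * σ (al σ κ) := by
      field_simp
    rw [h7]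
    exact hΔ
  by_cases hq5 : 5 ≤ Nat.card K
  · obtain ⟨w, hwS, hw⟩ := h1 L (Nat.card K) (al σ κ * ζ⁻¹) (be σ κ) (σ (al σ κ) * ζ)
      (Polynomial.nthRootsFinset (Nat.card K + 1) (1 : L)) ⟨h, hh⟩ hq5 hqL hL2
      (mul_ne_zero hal0 (inv_ne_zero hζ0)) (mul_ne_zero hal1 hζ0) hdisc
      hη.card_nthRootsFinset (fun w hw => (Polynomial.mem_nthRootsFinset (by omega) 1).1 hw)
    exact hw (hmain w ((Polynomial.mem_nthRootsFinset (by omega) 1).1 hwS))
  · have hq3 : Nat.card K = 3 := by omega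
    have hh1 : h = 1 := by omega
    have e1 := hmain 1 (one_pow _)
    rw [hhalf, hh1] at e1
    set η : L := ξ ^ (Nat.card K - 1) with hηdef
    have hη4 : η ^ (Nat.card K + 1) = 1 := hη.pow_eq_one
    have hη2 : η ^ 2 = -1 := by
      have h7 : η ^ 2 ≠ 1 := hη.pow_ne_one_of_pos_of_lt (by norm_num) (by omega)
      have h8 : (η ^ 2 - 1) * (η ^ 2 + 1) = 0 := by
        have h9 : η ^ 4 = 1 := by
          rw [hq3] at hη4
          exact hη4
        linear_combination h9
      rcases mul_eq_zero.1 h8 with h9 | h9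
      · exact absurd (sub_eq_zero.1 h9) h7
      · linear_combination h9
    have e2 := hmain η hη4
    rw [hhalf, hh1] at e2
    have e3 : al σ κ * ζ⁻¹ + be σ κ + σ (al σ κ) * ζ = 1 := by
      linear_combination e1
    have e4 : al σ κ * ζ⁻¹ - be σ κ + σ (al σ κ) * ζ = -1 := by
      have h9 : η ^ 4 = 1 := by
        rw [show η ^ 4 = (η ^ 2) ^ 2 by ring, hη2]
        ring
      rw [hη2, h9] at e2
      linear_combination -e2
    have e5 : be σ κ = 1 := by
      have h9 : (2 : L) * (be σ κ - 1) = 0 := by linear_combination e3 - e4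
      rcases mul_eq_zero.1 h9 with h9 | h9
      · exact absurd h9 hL2
      · exact sub_eq_zero.1 h9
    have e6 : al σ κ * ζ⁻¹ + σ (al σ κ) * ζ = 0 := by
      rw [e5] at e3
      linear_combination e3
    -- `ζ ^ 2 = -1`
    have e7 : ζ ^ 2 = -1 := by
      set θ : L := σ p0 / p0 with hθ
      have h7 : σ (σ θ) = θ := by
        rw [hθ, map_div₀, map_div₀, hp0', map_neg]
        field_simp
      have h8 : θ * σ θ = -1 := by
        rw [hθ, map_div₀, hp0']
        field_simp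
      rw [h2 K L σ hC θ h7, hq3] at h8
      have h9 : ζ = θ ^ 2 := by
        rw [hζ, hθ, div_pow]
      rw [h9]
      linear_combination h8
    have e8 : σ (al σ κ) = al σ κ := by
      have h7 : al σ κ + σ (al σ κ) * ζ ^ 2 = 0 := by
        have h8 := congrArg (· * ζ) e6
        simp only [add_mul, zero_mul] at h8
        rw [mul_assoc, inv_mul_cancel₀ hζ0, mul_one] at h8
        linear_combination h8
      rw [e7] at h7
      linear_combination -h7
    obtain ⟨c, hc⟩ := h3 K L σ hC _ e8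
    have hc0 : c ≠ 0 := by
      rintro rfl
      rw [map_zero] at hc
      exact hal0 hc.symm
    have e9 : (al σ κ) ^ 2 = 1 := by
      have h7 := FiniteField.pow_card_sub_one_eq_one c hc0
      rw [← Nat.card_eq_fintype_card, hq3] at h7
      rw [← hc, ← map_pow, show (2 : ℕ) = 3 - 1 from rfl, h7, map_one]
    have e10 : (3 : L) = 0 := by
      rw [hq3] at hqL
      exact_mod_cast hqL
    apply hΔ
    rw [e8, e5]
    linear_combination (-4) * e9 - e10

end Q130.MR_P2A
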