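import Pool.Agent.Q61.ND.Stm

/-!
# Project ND of helper61, job WIR
-/

set_option autoImplicit false

open MeasureTheory Set Filter Topology Real

namespace Pool.Agent.Q130.ND

open Pool.Agent.Q61.ND

theorem four (n : ℤ) (x : ℝ) : (fourier (-n) (x : AddCircle (π - -π)) : ℂ) =
    Complex.exp (-(n * x) * Complex.I) := by
  have hpi : (π : ℂ) ≠ 0 := by exact_mod_cast Real.pi_pos.ne'
  rw [fourier_coe_apply]
  congr 1
  push_cast
  have h2 : (π : ℂ) - -π = 2 * π := by ring
  rw [h2]
  field_simp

/-- **JOB WIR.** -/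
theorem wir : S_wir := by
  intro Ψ hΨ hanti hc hs
  have hpi := Real.pi_pos
  have hab : -π < π := by linarith
  have hdiff : Differentiable ℝ Ψ := hΨ.differentiable one_ne_zero
  have hcd : Continuous (deriv Ψ) := hΨ.continuous_deriv le_rfl
  have hcΨ : Continuous Ψ := hΨ.continuous
  set f : ℝ → ℂ := fun t => (Ψ t : ℂ) with hf
  set f' : ℝ → ℂ := fun t => ((deriv Ψ t : ℝ) : ℂ) with hf'
  have hfd : ∀ t, HasDerivAt f (f' t) t := fun t => ((hdiff t).hasDerivAt).ofReal_comp
  have hfc : Continuous f := Complex.continuous_ofReal.comp hcΨ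
  have hf'c : Continuous f' := Complex.continuous_ofReal.comp hcd
  have hL : MemLp f 2 (volume.restrict (Ioc (-π) π)) :=
    (memLp_two_iff_integrable_sq_norm hfc.aestronglyMeasurable).2 (hfc.norm.pow 2).integrableOn_Ioc
  have hL' : MemLp f' 2 (volume.restrict (Ioc (-π) π)) :=
    (memLp_two_iff_integrable_sq_norm hf'c.aestronglyMeasurable).2
      (hf'c.norm.pow 2).integrableOn_Ioc
  have hper : ∀ t, Ψ (t + 2 * π) = Ψ t := by
    intro t
    rw [show t + 2 * π = (t + π) + π by ring, hanti, hanti, neg_neg]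
  have hends : f π - f (-π) = 0 := by
    have h1 := hper (-π)
    rw [show -π + 2 * π = π by ring] at h1
    simp only [hf, h1, sub_self]
  -- coefficients as integrals
  have hco : ∀ n : ℤ, fourierCoeffOn hab f n =
      (1 / (π - -π)) • ∫ x in (-π)..π, Complex.exp (-(n * x) * Complex.I) * f x := by
    intro n
    rw [fourierCoeffOn_eq_integral]
    simp only [four, smul_eq_mul]
  -- the even ones vanish
  have heven : ∀ n : ℤ, Even n → fourierCoeffOn hab f n = 0 := by
    intro n hn
    obtain ⟨m, hm⟩ := hn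
    rw [hco n]
    set G : ℝ → ℂ := fun x => Complex.exp (-(n * x) * Complex.I) * f x with hG
    have hGa : ∀ x, G (x + π) = -G x := by
      intro x
      have h1 : Complex.exp (-(n * ((x + π : ℝ) : ℂ)) * Complex.I) =
          Complex.exp (-(n * x) * Complex.I) := by
        rw [Complex.exp_eq_exp_iff_exists_int]
        refine ⟨-m, ?_⟩
        rw [hm]
        push_cast
        ring
      simp only [hG, hf, hanti x]
      rw [h1]
      push_cast
      ring
    have hGp : Function.Periodic G (2 * π) := by
      intro x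
      rw [show x + 2 * π = (x + π) + π by ring, hGa, hGa, neg_neg]
    have h1 : ∫ x in (-π)..π, G x = ∫ x in (0 : ℝ)..(2 * π), G x := by
      have h2 := hGp.intervalIntegral_add_eq (-π) 0
      rw [show -π + 2 * π = π by ring, zero_add] at h2
      exact h2
    have h2 : ∫ x in (-π)..π, G (x + π) = ∫ x in (0 : ℝ)..(2 * π), G x := by
      rw [intervalIntegral.integral_comp_add_right]
      congr 1 <;> ring
    have h3 : ∫ x in (-π)..π, G x = 0 := by
      have h4 : ∫ x in (-π)..π, G (x + π) = -∫ x in (-π)..π, G x := by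
        simp only [hGa]
        exact intervalIntegral.integral_neg
      have h5 : ∫ x in (-π)..π, G x = -∫ x in (-π)..π, G x := by
        rw [← h4, h2, ← h1]
      exact self_eq_neg.1 h5
    rw [h3, smul_zero]
  -- the first ones vanish
  have hre : ∀ (g : ℝ → ℝ), Continuous g → (∫ t in (-π)..π, Ψ t * g t = 0) →
      ∫ x in (-π)..π, ((g x : ℂ) * f x) = 0 := by
    intro g _ h
    have h1 : ∫ x in (-π)..π, ((g x : ℂ) * f x) = ((∫ t in (-π)..π, Ψ t * g t : ℝ) : ℂ) := by
      rw [← intervalIntegral.integral_ofReal]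
      congr 1
      ext x
      simp only [hf]
      push_cast
      ring
    rw [h1, h, Complex.ofReal_zero]
  have hone : ∀ n : ℤ, (n = 1 ∨ n = -1) → fourierCoeffOn hab f n = 0 := by
    intro n hn
    rw [hco n]
    have hcc : ∀ x : ℝ, Complex.exp (-(n * x) * Complex.I) * f x =
        (Real.cos x : ℂ) * f x - (n : ℂ) * Complex.I * ((Real.sin x : ℂ) * f x) := by
      intro x
      rcases hn with rfl | rfl
      · have h1 : (-(((1 : ℤ) : ℂ) * x) * Complex.I) = ((-x : ℝ) : ℂ) * Complex.I := by
          push_cast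
          ring
        rw [h1, Complex.exp_mul_I, ← Complex.ofReal_cos, ← Complex.ofReal_sin, Real.cos_neg,
          Real.sin_neg]
        push_cast
        ring
      · have h1 : (-(((-1 : ℤ) : ℂ) * x) * Complex.I) = (x : ℂ) * Complex.I := by
          push_cast
          ring
        rw [h1, Complex.exp_mul_I, ← Complex.ofReal_cos, ← Complex.ofReal_sin]
        push_cast
        ring
    simp only [hcc]
    rw [intervalIntegral.integral_sub, intervalIntegral.integral_const_mul,
      hre Real.cos Real.continuous_cos hc, hre Real.sin Real.continuous_sin hs]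
    · simp
    · exact ((Complex.continuous_ofReal.comp Real.continuous_cos).mul hfc).intervalIntegrable _ _
    · exact (continuous_const.mul
        ((Complex.continuous_ofReal.comp Real.continuous_sin).mul hfc)).intervalIntegrable _ _
  -- coefficients of the derivative
  have hder : ∀ n : ℤ, n ≠ 0 → ‖fourierCoeffOn hab f' n‖ = |(n : ℝ)| * ‖fourierCoeffOn hab f n‖ := by
    intro n hn
    have h1 := fourierCoeffOn_of_hasDerivAt hab hn (fun x _ => hfd x) (hf'c.intervalIntegrable _ _)
    rw [hends, mul_zero, zero_sub] at h1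
    have hn' : (n : ℂ) ≠ 0 := by exact_mod_cast hn
    have hpi' : (π : ℂ) ≠ 0 := by exact_mod_cast hpi.ne'
    have h2 : fourierCoeffOn hab f' n = (Complex.I * n) * fourierCoeffOn hab f n := by
      rw [h1]
      have hI := Complex.I_ne_zero
      push_cast
      field_simp
      ring
    rw [h2, norm_mul, norm_mul, Complex.norm_I, one_mul, Complex.norm_intCast]
  have key : ∀ n : ℤ, 9 * ‖fourierCoeffOn hab f n‖ ^ 2 ≤ ‖fourierCoeffOn hab f' n‖ ^ 2 := by
    intro n
    rcases Int.even_or_odd n with he | ho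
    · have h := sq_nonneg ‖fourierCoeffOn hab f' n‖
      rw [heven n he, norm_zero]
      linarith
    · by_cases h1 : n = 1 ∨ n = -1
      · have h := sq_nonneg ‖fourierCoeffOn hab f' n‖
        rw [hone n h1, norm_zero]
        linarith
      · have h0 : n ≠ 0 := by
          rintro rfl
          exact absurd ho (by decide)
        rw [hder n h0, mul_pow, sq_abs]
        have h3 : (9 : ℝ) ≤ (n : ℝ) ^ 2 := by
          have h4 : (9 : ℤ) ≤ n ^ 2 := by
            obtain ⟨m, hm⟩ := ho
            have h5 : 3 ≤ |n| := by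
              rw [le_abs]
              omega
            calc (9 : ℤ) = 3 ^ 2 := by norm_num
              _ ≤ |n| ^ 2 := by gcongr
              _ = n ^ 2 := sq_abs n
          exact_mod_cast h4
        exact mul_le_mul_of_nonneg_right h3 (sq_nonneg _)
  have h1 := (hasSum_sq_fourierCoeffOn hab hL).mul_left 9
  have h2 := hasSum_sq_fourierCoeffOn hab hL'
  have h3 := hasSum_le key h1 h2
  have e1 : ∀ x, ‖f x‖ ^ 2 = Ψ x ^ 2 := by
    intro x
    simp only [hf, Complex.norm_real, Real.norm_eq_abs, sq_abs]
  have e2 : ∀ x, ‖f' x‖ ^ 2 = deriv Ψ x ^ 2 := by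
    intro x
    simp only [hf', Complex.norm_real, Real.norm_eq_abs, sq_abs]
  simp only [e1, e2, smul_eq_mul] at h3
  have h4 : 0 < (π - -π)⁻¹ := by
    rw [inv_pos]
    linarith
  have h5 : (π - -π)⁻¹ * (9 * ∫ t in (-π)..π, Ψ t ^ 2) ≤ (π - -π)⁻¹ * ∫ t in (-π)..π, deriv Ψ t ^ 2 := by
    calc _ = 9 * ((π - -π)⁻¹ * ∫ t in (-π)..π, Ψ t ^ 2) := by ring
      _ ≤ _ := h3
  exact le_of_mul_le_mul_left h5 h4

end Pool.Agent.Q130.ND
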