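import Mathlib
import Pool.Agent.Q2.TN.Stm

/-!
Lemma job C1 of project TN (helper2), proved by helper130: in a finite group without nontrivial
normal subgroups of order prime to `p` whose quotient by `O_p(G)` is `p`-nilpotent the centralizer
of `O_p(G)` is contained in `O_p(G)`.
-/

set_option autoImplicit false

namespace Q130.TN_C1

open Subgroup Q2.TN

theorem c1 : S_C1 := by
  intro p hp G _ _ U _ hU hNo hnil
  haveI : Fact p.Prime := ⟨hp⟩
  obtain ⟨N', hN'n, hN'c, k, hk⟩ := hnil
  obtain ⟨-, hUp, hUmax⟩ := hU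
  set K : Subgroup G := N'.comap (QuotientGroup.mk' U) with hK
  haveI hKn : K.Normal := hN'n.comap _
  set C : Subgroup G := centralizer (U : Set G) with hC
  haveI hCn : C.Normal := Subgroup.normal_centralizer
  set L : Subgroup G := C ⊓ K with hL
  haveI hLn : L.Normal := inferInstance
  set N : Subgroup L := U.subgroupOf L with hN
  haveI hNn : N.Normal := inferInstance
  -- the index of `N` in `L` is prime to `p`
  have hidx : N.index ∣ Nat.card N' := by
    let f : L →* (G ⧸ U) := (QuotientGroup.mk' U).comp L.subtype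
    have hker : f.ker = N := by
      ext x
      rw [MonoidHom.mem_ker, Subgroup.mem_subgroupOf]
      show (QuotientGroup.mk' U) (x : G) = 1 ↔ _
      rw [QuotientGroup.mk'_apply, QuotientGroup.eq_one_iff]
    rw [← hker, Subgroup.index_ker]
    refine Subgroup.card_dvd_of_le ?_
    rintro _ ⟨x, rfl⟩
    exact x.2.2
  have hidxc : N.index.Coprime p := Nat.Coprime.coprime_dvd_left hidx hN'c
  have hNp : IsPGroup p N := by
    intro x
    obtain ⟨j, hj⟩ := hUp ⟨x.1.1, x.2⟩
    refine ⟨j, ?_⟩
    have h0 : ((x : L) : G) ^ (p ^ j) = 1 := by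
      have h1 := congrArg (Subtype.val : U → G) hj
      exact h1
    apply Subtype.ext
    apply Subtype.ext
    exact h0
  obtain ⟨j, hj⟩ := IsPGroup.iff_card.mp hNp
  have hcop : Nat.Coprime (Nat.card N) N.index := by
    rw [hj]
    exact (Nat.Coprime.pow_left j hidxc.symm)
  obtain ⟨H, hH⟩ := Subgroup.exists_right_complement'_of_coprime hcop
  have hcardH : Nat.card H = N.index := hH.symm.index_eq_card.symm
  have hHp : (Nat.card H).Coprime p := by rw [hcardH]; exact hidxc
  -- the complement is normal in `G`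
  let R : Subgroup G := H.map L.subtype
  have hRn : R.Normal := by
    constructor
    rintro r ⟨x, hx, rfl⟩ g
    have hgx : g * (x : G) * g⁻¹ ∈ L := hLn.conj_mem _ x.2 g
    obtain ⟨⟨⟨z, hz⟩, ⟨h, hh⟩⟩, e⟩ := hH.2 ⟨g * (x : G) * g⁻¹, hgx⟩
    have e' : z * h = ⟨g * (x : G) * g⁻¹, hgx⟩ := e
    -- `z` commutes with `h`
    have hcomm : Commute z h := by
      apply Subtype.ext
      show (z : G) * (h : G) = (h : G) * (z : G)
      have h1 : (h : G) ∈ centralizer (U : Set G) := h.2.1
      rw [Subgroup.mem_centralizer_iff] at h1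
      exact h1 _ hz
    -- powers
    have hxm : x ^ Nat.card H = 1 := by
      have h2 : (⟨x, hx⟩ : H) ^ Nat.card H = 1 := pow_card_eq_one'
      exact congrArg Subtype.val h2
    have hhm : h ^ Nat.card H = 1 := by
      have h2 : (⟨h, hh⟩ : H) ^ Nat.card H = 1 := pow_card_eq_one'
      exact congrArg Subtype.val h2
    have hzhm : (z * h) ^ Nat.card H = 1 := by
      rw [e']
      apply Subtype.ext
      show (g * (x : G) * g⁻¹) ^ Nat.card H = 1
      rw [conj_pow]
      have h3 : (x : G) ^ Nat.card H = 1 := congrArg Subtype.val hxm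
      rw [h3, mul_one, mul_inv_cancel]
    have hzm : z ^ Nat.card H = 1 := by
      rw [hcomm.mul_pow, hhm, mul_one] at hzhm
      exact hzhm
    have hzp : z ^ Nat.card N = 1 := by
      have h2 : (⟨z, hz⟩ : N) ^ Nat.card N = 1 := pow_card_eq_one'
      exact congrArg Subtype.val h2
    have hz1 : z = 1 := by
      have h4 : orderOf z ∣ Nat.gcd (Nat.card H) (Nat.card N) :=
        Nat.dvd_gcd (orderOf_dvd_of_pow_eq_one hzm) (orderOf_dvd_of_pow_eq_one hzp)
      have h5 : Nat.gcd (Nat.card H) (Nat.card N) = 1 := by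
        rw [hcardH]
        exact hcop.symm
      rw [h5, Nat.dvd_one, orderOf_eq_one_iff] at h4
      exact h4
    rw [hz1, one_mul] at e'
    refine ⟨h, hh, ?_⟩
    show (h : G) = g * (x : G) * g⁻¹
    rw [e']
  have hRc : (Nat.card R).Coprime p := by
    have h1 : Nat.card R = Nat.card H :=
      (Subgroup.card_map_of_injective L.subtype_injective)
    rw [h1]
    exact hHp
  have hR := hNo R hRn hRc
  have hHbot : H = ⊥ := by
    rw [Subgroup.map_eq_bot_iff_of_injective _ L.subtype_injective] at hR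
    exact hR
  have hLU : L ≤ U := by
    intro x hx
    obtain ⟨⟨⟨z, hz⟩, ⟨h, hh⟩⟩, e⟩ := hH.2 ⟨x, hx⟩
    have e' : z * h = ⟨x, hx⟩ := e
    have hh1 : h ∈ H := hh
    rw [hHbot, Subgroup.mem_bot] at hh1
    rw [hh1, mul_one] at e'
    have h1 : (z : G) ∈ U := hz
    rw [e'] at h1
    exact h1
  -- `C` is a `p`-group
  have hCp : IsPGroup p C := by
    intro c
    have h1 : (c : G) ^ (p ^ k) ∈ K := by
      show (QuotientGroup.mk' U) ((c : G) ^ (p ^ k)) ∈ N'
      rw [map_pow]
      have h2 := Subgroup.pow_index_mem N' ((QuotientGroup.mk' U) (c : G))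
      rw [hk] at h2
      exact h2
    have h3 : (c : G) ^ (p ^ k) ∈ U := hLU ⟨C.pow_mem c.2 _, h1⟩
    obtain ⟨i, hi⟩ := hUp ⟨_, h3⟩
    refine ⟨k + i, ?_⟩
    apply Subtype.ext
    show (c : G) ^ (p ^ (k + i)) = 1
    rw [pow_add, pow_mul]
    exact congrArg Subtype.val hi
  exact hUmax C hCn hCp

end Q130.TN_C1
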