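import Mathlib
import Pool.Agent.Q2.TN.Stm

/-!
Lemma job D1 of project TN (helper2), proved by helper130: the subgroups `J(P)` and `Z(P)` are
compatible with homomorphisms that are injective on `P`.
-/

set_option autoImplicit false

namespace Q130.TN_D1

open Subgroup Q2.TN

variable {G H : Type} [Group G] [Group H]

lemma inj_of {f : G →* H} {P : Subgroup G} (hf : ∀ x ∈ P, f x = 1 → x = 1) {x y : G} (hx : x ∈ P)
    (hy : y ∈ P) (h : f x = f y) : x = y := by
  have h1 : f (x * y⁻¹) = 1 := by rw [map_mul, map_inv, h, mul_inv_cancel]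
  have h2 := hf _ (P.mul_mem hx (P.inv_mem hy)) h1
  exact mul_inv_eq_one.mp h2

lemma card_map {f : G →* H} {P A : Subgroup G} (hf : ∀ x ∈ P, f x = 1 → x = 1) (hA : A ≤ P) :
    Nat.card (A.map f) = Nat.card A := by
  have hinj : Function.Injective (f.comp A.subtype) := by
    intro x y h
    apply Subtype.ext
    exact inj_of hf (hA x.2) (hA y.2) h
  have e : (f.comp A.subtype).range = A.map f := by
    ext y
    constructor
    · rintro ⟨x, rfl⟩
      exact ⟨x, x.2, rfl⟩
    · rintro ⟨x, hx, rfl⟩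
      exact ⟨⟨x, hx⟩, rfl⟩
  rw [← e]
  exact (Nat.card_congr (MonoidHom.ofInjective hinj).toEquiv).symm

lemma ab_map {f : G →* H} {A : Subgroup G} (h : IsAb A) : IsAb (A.map f) := by
  rintro _ ⟨x, hx, rfl⟩ _ ⟨y, hy, rfl⟩
  rw [← map_mul, ← map_mul, h x hx y hy]

lemma ab_of_map {f : G →* H} {P A : Subgroup G} (hf : ∀ x ∈ P, f x = 1 → x = 1) (hA : A ≤ P)
    (h : IsAb (A.map f)) : IsAb A := by
  intro x hx y hy
  refine inj_of hf (P.mul_mem (hA hx) (hA hy)) (P.mul_mem (hA hy) (hA hx)) ?_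
  rw [map_mul, map_mul]
  exact h _ ⟨x, hx, rfl⟩ _ ⟨y, hy, rfl⟩

lemma map_pre {f : G →* H} {P : Subgroup G} {B : Subgroup H} (hB : B ≤ P.map f) :
    (B.comap f ⊓ P).map f = B := by
  apply le_antisymm
  · rintro _ ⟨x, hx, rfl⟩
    exact hx.1
  · intro y hy
    obtain ⟨x, hx, rfl⟩ := hB hy
    exact ⟨x, ⟨hy, hx⟩, rfl⟩

lemma max_map {f : G →* H} {P A : Subgroup G} (hf : ∀ x ∈ P, f x = 1 → x = 1)
    (h : IsMaxAb P A) : IsMaxAb (P.map f) (A.map f) := by
  obtain ⟨h1, h2, h3⟩ := h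
  refine ⟨Subgroup.map_mono h1, ab_map h2, fun B hB hBa => ?_⟩
  have e := map_pre hB
  have hA' : IsAb (B.comap f ⊓ P) := ab_of_map hf inf_le_right (by rw [e]; exact hBa)
  calc Nat.card B = Nat.card ((B.comap f ⊓ P).map f) := by rw [e]
    _ = Nat.card (B.comap f ⊓ P : Subgroup G) := card_map hf inf_le_right
    _ ≤ Nat.card A := h3 _ inf_le_right hA'
    _ = Nat.card (A.map f) := (card_map hf h1).symm

lemma max_pre {f : G →* H} {P : Subgroup G} {B : Subgroup H} (hf : ∀ x ∈ P, f x = 1 → x = 1)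
    (h : IsMaxAb (P.map f) B) : IsMaxAb P (B.comap f ⊓ P) := by
  obtain ⟨h1, h2, h3⟩ := h
  have e := map_pre h1
  refine ⟨inf_le_right, ab_of_map hf inf_le_right (by rw [e]; exact h2), fun A hA hAa => ?_⟩
  calc Nat.card A = Nat.card (A.map f) := (card_map hf hA).symm
    _ ≤ Nat.card B := h3 _ (Subgroup.map_mono hA) (ab_map hAa)
    _ = Nat.card ((B.comap f ⊓ P).map f) := by rw [e]
    _ = Nat.card (B.comap f ⊓ P : Subgroup G) := card_map hf inf_le_right

theorem d1 : S_D1 := by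
  intro G H _ _ _ _ f P hf b
  cases b with
  | true =>
    show (sSup {A : Subgroup G | IsMaxAb P A}).map f = sSup {A : Subgroup H | IsMaxAb (P.map f) A}
    rw [(Subgroup.gc_map_comap f).l_sSup]
    apply le_antisymm
    · refine iSup₂_le fun A hA => ?_
      exact le_sSup (max_map hf hA)
    · refine sSup_le fun B hB => ?_
      have e := map_pre (f := f) hB.1
      calc B = (B.comap f ⊓ P).map f := e.symm
        _ ≤ _ := le_iSup₂ (f := fun (A : Subgroup G) (_ : A ∈ {A : Subgroup G | IsMaxAb P A}) =>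
          A.map f) _ (max_pre hf hB)
  | false =>
    show (P ⊓ centralizer (P : Set G)).map f = P.map f ⊓ centralizer ((P.map f : Subgroup H) : Set H)
    apply le_antisymm
    · rintro _ ⟨x, ⟨hx, hxc⟩, rfl⟩
      refine ⟨⟨x, hx, rfl⟩, ?_⟩
      have hxc' : x ∈ centralizer (P : Set G) := hxc
      rw [mem_centralizer_iff] at hxc'
      show f x ∈ centralizer ((P.map f : Subgroup H) : Set H)
      rw [mem_centralizer_iff]
      rintro _ ⟨z, hz, rfl⟩
      rw [← map_mul, ← map_mul, hxc' z hz]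
    · rintro y ⟨⟨x, hx, rfl⟩, hc⟩
      have hc' : f x ∈ centralizer ((P.map f : Subgroup H) : Set H) := hc
      rw [mem_centralizer_iff] at hc'
      refine ⟨x, ⟨hx, ?_⟩, rfl⟩
      show x ∈ centralizer (P : Set G)
      rw [mem_centralizer_iff]
      intro z hz
      refine inj_of hf (P.mul_mem hz hx) (P.mul_mem hx hz) ?_
      rw [map_mul, map_mul]
      exact hc' _ ⟨z, hz, rfl⟩

end Q130.TN_D1
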